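import Pool.Agent.W5h63.FJ.Top

set_option autoImplicit false

/-!
# Orbits of subgroups which act on the span of the orbit by commuting matrices
-/

namespace Pool.Agent.W5h63.FJ

open MvPolynomial Module

/-- A basis of joint eigenvectors of commuting semisimple endomorphisms. -/
theorem exists_eigenbasis {W : Type} [AddCommGroup W] [Module ℂ W] [FiniteDimensional ℂ W]
    {ι : Type} (T : ι → Module.End ℂ W) (hc : ∀ i j, Commute (T i) (T j))
    (hs : ∀ i, Module.End.IsSemisimple (T i)) :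
    ∃ (r : ℕ) (u : Basis (Fin r) ℂ W), ∀ i k, ∃ a : ℂ, T i (u k) = a • u k := by
  classical
  have h1 := Module.End.iSup_iInf_maxGenEigenspace_eq_top_of_iSup_maxGenEigenspace_eq_top_of_commute
    T (fun i j _ => hc i j) (fun i => Module.End.iSup_maxGenEigenspace_eq_top (T i))
  let S : Set W := {v | ∀ i, ∃ a : ℂ, T i v = a • v}
  have hS : Submodule.span ℂ S = ⊤ := by
    rw [eq_top_iff, ← h1]
    refine iSup_le fun χ => ?_
    intro v hv
    refine Submodule.subset_span ?_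
    intro i
    refine ⟨χ i, ?_⟩
    rw [Submodule.mem_iInf] at hv
    have h2 := hv i
    rw [(hs i).isFinitelySemisimple.maxGenEigenspace_eq_eigenspace] at h2
    exact Module.End.mem_eigenspace_iff.1 h2
  obtain ⟨b, hbS, hbspan, hbli⟩ := exists_linearIndependent ℂ S
  let B := Basis.mk hbli (by rw [Subtype.range_coe, hbspan, hS])
  have : Finite b := Module.Finite.finite_basis B
  have := Fintype.ofFinite b
  refine ⟨_, B.reindex (Fintype.equivFin b), fun i k => ?_⟩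
  rw [Basis.reindex_apply, Basis.mk_apply]
  exact hbS ((Fintype.equivFin b).symm k).2 i

variable {G : Type} [Group G] {n : ℕ} {ρ : Representation ℂ G (Fin n → ℂ)}
  {I : Ideal (MvPolynomial (Fin n) ℂ)}

/-- Averaging a form. -/
theorem average_sum [Fintype G] {e : ℕ} (P : MvPolynomial (Fin n) ℂ) (hP : P.IsHomogeneous e)
    {y : Fin n → ℂ} (χ : G →* ℂˣ)
    (hPy : ∑ g, (((χ g)⁻¹ : ℂˣ) : ℂ) * eval (ρ g y) P ≠ 0) :
    ∃ F : MvPolynomial (Fin n) ℂ, F.IsHomogeneous e ∧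
      (∀ g x, eval (ρ g x) F = χ g * eval x F) ∧ eval y F ≠ 0 := by
  classical
  let T : G → MvPolynomial (Fin n) ℂ := fun g =>
    aeval (fun i => lf ((LinearMap.proj i : (Fin n → ℂ) →ₗ[ℂ] ℂ) ∘ₗ ρ g)) P
  have hTe : ∀ g x, eval x (T g) = eval (ρ g x) P := by
    intro g x
    simp only [T]
    rw [← coe_aeval_eq_eval, ← coe_aeval_eq_eval]
    show aeval x (aeval _ P) = aeval (ρ g x) P
    rw [← AlgHom.comp_apply, comp_aeval]
    congr 1
    congr 1
    funext i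
    have h5 := eval_lf ((LinearMap.proj i : (Fin n → ℂ) →ₗ[ℂ] ℂ) ∘ₗ ρ g) x
    rw [← coe_aeval_eq_eval] at h5
    exact h5
  have hTh : ∀ g, (T g).IsHomogeneous e := by
    intro g
    have h1 := hP.aeval (fun i => lf ((LinearMap.proj i : (Fin n → ℂ) →ₗ[ℂ] ℂ) ∘ₗ ρ g))
      (fun i => lf_hom _)
    rwa [one_mul] at h1
  refine ⟨∑ g, C (((χ g)⁻¹ : ℂˣ) : ℂ) * T g, ?_, ?_, ?_⟩
  · refine IsHomogeneous.sum _ _ _ fun g _ => ?_
    have h1 := (isHomogeneous_C (Fin n) (((χ g)⁻¹ : ℂˣ) : ℂ)).mul (hTh g)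
    rwa [zero_add] at h1
  · intro h x
    simp only [map_sum, map_mul, eval_C, hTe]
    rw [Finset.mul_sum]
    refine Fintype.sum_bijective (fun g => g * h) (Group.mulRight_bijective h) _ _ fun g => ?_
    simp only [mul_app]
    have h1 : ((χ (g * h))⁻¹ : ℂˣ) = (χ h)⁻¹ * (χ g)⁻¹ := by
      rw [map_mul, mul_inv_rev]
    rw [h1, Units.val_mul, ← mul_assoc, ← mul_assoc, Units.mul_inv, one_mul]
  · simp only [map_sum, map_mul, eval_C, hTe]
    exact hPy

open Pool.Agent.TH144.MB in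
/-- A semi-invariant monomial in linear forms which are semi-invariant on `W`. -/
theorem exists_mono [Fintype G] (hI : Hom I) {ρ₀ : ℕ} (hρ : TopBound I ρ₀)
    (hst : ∀ g v, (∀ p ∈ I, eval v p = 0) → ∀ p ∈ I, eval (ρ g v) p = 0)
    (hfree : ∀ v, v ≠ 0 → (∀ p ∈ I, eval v p = 0) → ∀ g (μ : ℂ), ρ g v = μ • v → g ∈ scal ρ)
    {e : ℕ} (hde : ρ₀ ≤ e) (H : Subgroup G) (W : Submodule ℂ (Fin n → ℂ))
    (hW : ∀ h ∈ H, ∀ x ∈ W, ρ h x ∈ W) {r : ℕ} (u : Basis (Fin r) ℂ W)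
    (ξ : Fin r → ((Fin n → ℂ) →ₗ[ℂ] ℂ)) (hξ : ∀ k (v : W), ξ k v = u.repr v k)
    (α : Fin r → H →* ℂˣ) (hα : ∀ k (h : H), ρ h (u k : Fin n → ℂ) = (α k h : ℂ) • (u k : Fin n → ℂ))
    (χ : G →* ℂˣ) (hχ : ∀ g (ν : ℂ), (∀ x, ρ g x = ν • x) → (χ g : ℂ) = ν ^ e)
    {y : Fin n → ℂ} (hy0 : y ≠ 0) (hy : ∀ p ∈ I, eval y p = 0) (hyW : y ∈ W) :
    ∃ μ : Fin r →₀ ℕ, μ.degree = e ∧
      (∀ h : H, ∏ k, ξ k (ρ h y) ^ μ k = χ h * ∏ k, ξ k y ^ μ k) ∧ ∏ k, ξ k y ^ μ k ≠ 0 := by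
  classical
  -- the coordinates of the points of `W`
  have hsum : ∀ v ∈ W, v = ∑ k, ξ k v • (u k : Fin n → ℂ) := by
    intro v hv
    have h1 := u.sum_repr ⟨v, hv⟩
    have h2 := congrArg (W.subtype) h1
    rw [map_sum] at h2
    simp only [map_smul, Submodule.subtype_apply] at h2
    conv_lhs => rw [← h2]
    refine Finset.sum_congr rfl fun k _ => ?_
    rw [← hξ k ⟨v, hv⟩]
  have hξ0 : ∀ v ∈ W, (∀ k, ξ k v = 0) → v = 0 := by
    intro v hv h
    rw [hsum v hv]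
    refine Finset.sum_eq_zero fun k _ => ?_
    rw [h, zero_smul]
  have hξα : ∀ (h : H) (k : Fin r) (v : Fin n → ℂ), v ∈ W → ξ k (ρ h v) = α k h * ξ k v := by
    intro h k v hv
    have h1 : ρ h v = ∑ j, (α j h * ξ j v) • (u j : Fin n → ℂ) := by
      conv_lhs => rw [hsum v hv]
      rw [map_sum]
      refine Finset.sum_congr rfl fun j _ => ?_
      rw [map_smul, hα, smul_smul, mul_comm]
    rw [h1, map_sum, Finset.sum_eq_single k]
    · rw [map_smul, hξ k (u k), Basis.repr_self, Finsupp.single_eq_same, smul_eq_mul, mul_one]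
    · intro j _ hj
      rw [map_smul, hξ k (u j), Basis.repr_self, Finsupp.single_eq_of_ne' hj, smul_zero]
    · intro h; exact absurd (Finset.mem_univ _) h
  -- a point of minimal support inside the support of `y`
  let P : ℕ → Prop := fun m => ∃ w ∈ W, w ≠ 0 ∧ (∀ p ∈ I, eval w p = 0) ∧
    (∀ k, ξ k y = 0 → ξ k w = 0) ∧ (Finset.univ.filter fun k => ξ k w ≠ 0).card = m
  have hP : ∃ m, P m := ⟨_, y, hyW, hy0, hy, fun _ h => h, rfl⟩
  obtain ⟨w, hwW, hw0, hw, hwy, hwk⟩ := Nat.find_spec hP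
  have hmin : ∀ v ∈ W, (∀ p ∈ I, eval v p = 0) → (∀ k, ξ k w = 0 → ξ k v = 0) →
      (∃ k, ξ k w ≠ 0 ∧ ξ k v = 0) → v = 0 := by
    intro v hvW hv hvw ⟨k, hk, hk2⟩
    by_contra hv0
    have h1 : Nat.find hP ≤ (Finset.univ.filter fun k => ξ k v ≠ 0).card :=
      Nat.find_min' hP ⟨v, hvW, hv0, hv, fun k hk => hvw k (hwy k hk), rfl⟩
    rw [← hwk] at h1
    have h2 : (Finset.univ.filter fun k => ξ k v ≠ 0).card
        < (Finset.univ.filter fun k => ξ k w ≠ 0).card := by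
      apply Finset.card_lt_card
      rw [Finset.ssubset_iff_of_subset]
      · exact ⟨k, by simp [hk], by simp [hk2]⟩
      · intro j hj
        rw [Finset.mem_filter] at hj ⊢
        exact ⟨hj.1, fun h => hj.2 (hvw j h)⟩
    omega
  obtain ⟨k0, hk0⟩ : ∃ k, ξ k w ≠ 0 := by
    by_contra hc
    push Not at hc
    exact hw0 (hξ0 w hwW hc)
  -- the coordinate subspace of `w`
  let W' : Submodule ℂ (Fin n → ℂ) := W ⊓ ⨅ k : {k // ξ k w = 0}, LinearMap.ker (ξ k)
  have hW' : ∀ v, v ∈ W' ↔ v ∈ W ∧ ∀ k, ξ k w = 0 → ξ k v = 0 := by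
    intro v
    simp only [W', Submodule.mem_inf, Submodule.mem_iInf, LinearMap.mem_ker, Subtype.forall]
  obtain ⟨F, hF, hFw, hFS⟩ := sep_finite hI hρ W' (ξ k0) (by
      intro v hv hvI hv0
      obtain ⟨h1, h2⟩ := (hW' v).1 hv
      exact hmin v h1 hvI h2 ⟨k0, hk0, hv0⟩) hw0 hw ((hW' w).2 ⟨hwW, fun k hk => hk⟩)
    ((Finset.univ.filter fun g : G => g ∈ H ∧ g ∉ scal ρ).image fun g => ρ g w) (by
      intro s hs
      obtain ⟨g, hg, rfl⟩ := Finset.mem_image.1 hs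
      obtain ⟨_, hgH, hgs⟩ := Finset.mem_filter.1 hg
      have h0 : ρ g w ≠ 0 := by
        intro h1
        apply hw0
        rw [← inv_app (ρ := ρ) g w, h1, map_zero]
      refine ⟨h0, hst g w hw, (hW' _).2 ⟨hW g hgH w hwW, fun k hk => ?_⟩, ?_⟩
      · have h2 := hξα ⟨g, hgH⟩ k w hwW
        rw [hk, mul_zero] at h2
        exact h2
      · intro h1
        obtain ⟨a, ha⟩ := Submodule.mem_span_singleton.1 h1
        have ha0 : a ≠ 0 := by
          rintro rfl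
          rw [zero_smul] at ha
          exact hw0 ha.symm
        apply hgs
        refine hfree w hw0 hw g a⁻¹ ?_
        conv_rhs => rw [← ha]
        rw [smul_smul, inv_mul_cancel₀ ha0, one_smul]) hde
  -- the form in the coordinates of `W`
  let F' : MvPolynomial (Fin r) ℂ := aeval (fun i => ∑ k, C ((u k : Fin n → ℂ) i) * X k) F
  have hF' : F'.IsHomogeneous e := by
    have h1 := hF.aeval (fun i => ∑ k, C ((u k : Fin n → ℂ) i) * X k : Fin n → MvPolynomial (Fin r) ℂ)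
      (fun i => IsHomogeneous.sum _ _ _ fun k _ => isHomogeneous_C_mul_X _ _)
    rwa [one_mul] at h1
  have hF'e : ∀ v ∈ W, eval (fun k => ξ k v) F' = eval v F := by
    intro v hv
    simp only [F']
    rw [← coe_aeval_eq_eval, ← coe_aeval_eq_eval]
    show aeval (fun k => ξ k v) (aeval _ F) = aeval v F
    rw [← AlgHom.comp_apply, comp_aeval]
    congr 1
    congr 1
    funext i
    conv_rhs => rw [hsum v hv]
    simp [Finset.sum_apply, mul_comm]
  have hLam : Lam α (χ.comp H.subtype) (fun k => ξ k w) F' ≠ 0 := by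
    unfold Lam
    have h1 : ∀ h : H, ((((χ.comp H.subtype) h)⁻¹ : ℂˣ) : ℂ) * eval (mv α h fun k => ξ k w) F'
        = if (h : G) ∈ scal ρ then eval w F else 0 := by
      intro h
      have h2 : mv α h (fun k => ξ k w) = fun k => ξ k (ρ h w) := by
        funext k
        exact (hξα h k w hwW).symm
      rw [h2, hF'e _ (hW h h.2 w hwW)]
      split_ifs with hs
      · obtain ⟨ν, hν⟩ := hs
        have h3 := hχ h ν hν
        have h4 : (ν • w : Fin n → ℂ) = fun k => ν * w k := rfl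
        rw [hν, h4, eval_smul' hF, ← h3]
        show (((χ (h : G))⁻¹ : ℂˣ) : ℂ) * ((χ (h : G) : ℂ) * eval w F) = _
        rw [← mul_assoc, Units.inv_mul, one_mul]
      · rw [hFS _ (Finset.mem_image.2 ⟨(h : G), Finset.mem_filter.2
          ⟨Finset.mem_univ _, h.2, hs⟩, rfl⟩), mul_zero]
    rw [Finset.sum_congr rfl fun h _ => h1 h, ← Finset.sum_filter, Finset.sum_const, nsmul_eq_mul]
    refine mul_ne_zero ?_ hFw
    rw [Nat.cast_ne_zero]
    refine Finset.card_ne_zero_of_mem (a := (1 : H)) ?_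
    rw [Finset.mem_filter]
    exact ⟨Finset.mem_univ _, (scal ρ).one_mem⟩
  obtain ⟨m, hm, hm1, hm2⟩ := exists_mon α _ _ _ hLam
  refine ⟨m, ?_, ?_, ?_⟩
  · by_contra h
    exact (MvPolynomial.mem_support_iff.1 hm) (hF'.coeff_eq_zero h)
  · intro h
    have h1 : ∏ k, (α k h) ^ m k = χ h := by
      rw [← chr_apply, hm1]
      rfl
    have h2 := congrArg (fun u : ℂˣ => (u : ℂ)) h1
    simp only [Units.coe_prod, Units.val_pow_eq_pow_val] at h2
    rw [← h2, ← Finset.prod_mul_distrib]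
    refine Finset.prod_congr rfl fun k _ => ?_
    rw [hξα h k y hyW, mul_pow]
  · rw [Finset.prod_ne_zero_iff]
    intro k _
    have h1 : ξ k w ^ m k ≠ 0 := (Finset.prod_ne_zero_iff.1 hm2) k (Finset.mem_univ k)
    rcases Nat.eq_zero_or_pos (m k) with h2 | h2
    · rw [h2, pow_zero]; exact one_ne_zero
    · refine pow_ne_zero _ fun h3 => ?_
      rw [hwy k h3, zero_pow h2.ne'] at h1
      exact h1 rfl

open Pool.Agent.TH144.MB in
theorem main [Finite G] (hI : Hom I) {ρ₀ : ℕ} (hρ : TopBound I ρ₀)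
    (hst : ∀ g v, (∀ p ∈ I, eval v p = 0) → ∀ p ∈ I, eval (ρ g v) p = 0)
    (hfree : ∀ v, v ≠ 0 → (∀ p ∈ I, eval v p = 0) → ∀ g (μ : ℂ), ρ g v = μ • v → g ∈ scal ρ)
    (e : ℕ) (hde : ρ₀ ≤ e)
    {y : Fin n → ℂ} (hy0 : y ≠ 0) (hy : ∀ p ∈ I, eval y p = 0)
    (hH : ∀ H : Subgroup G, 3 ≤ finrank ℂ (Submodule.span ℂ (Set.range fun h : H => ρ h y)) →
      (scal ρ).relIndex H
        ≤ 1 + e * (finrank ℂ (Submodule.span ℂ (Set.range fun h : H => ρ h y)) - 1) ∨
      (∃ S : Finset (Fin n → ℂ), ∀ v ∈ Submodule.span ℂ (Set.range fun h : H => ρ h y), v ≠ 0 →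
        (∀ p ∈ I, eval v p = 0) → ∃ u ∈ S, ∃ c : ℂ, v = c • u) ∨
      ∀ h ∈ H, ∀ h' ∈ H, ∀ v ∈ Submodule.span ℂ (Set.range fun h : H => ρ h y),
        ρ h (ρ h' v) = ρ h' (ρ h v))
    (χ : G →* ℂˣ) (hχ : ∀ g (ν : ℂ), (∀ x, ρ g x = ν • x) → (χ g : ℂ) = ν ^ e) :
    ∃ F : MvPolynomial (Fin n) ℂ, F.IsHomogeneous e ∧
      (∀ g x, eval (ρ g x) F = χ g * eval x F) ∧ eval y F ≠ 0 := by
  classical
  have _ := Fintype.ofFinite G
  have _ := Fintype.ofFinite (G ⧸ scal ρ)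
  obtain ⟨K, B, hKB, hmax⟩ := exists_max_subgroup (dm (orb ρ y)) e (dm_submod _) (dm_tr y)
  by_cases hcomm : ∀ h ∈ K.comap (QuotientGroup.mk' (scal ρ)),
      ∀ h' ∈ K.comap (QuotientGroup.mk' (scal ρ)), ∀ v ∈ Submodule.span ℂ (Set.range
        fun h : (K.comap (QuotientGroup.mk' (scal ρ)) : Subgroup G) => ρ h y),
        ρ h (ρ h' v) = ρ h' (ρ h v)
  swap
  · refine core hI hρ hst hfree e hde hy0 hy K B hKB hmax ?_ χ hχ
    intro h3
    rcases hH _ h3 with h4 | h4 | h4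
    · exact Or.inl h4
    · exact Or.inr h4
    · exact absurd h4 hcomm
  have hspan := span_eq K B hKB y
  have hB1 : (1 : G ⧸ scal ρ) ∈ B := (hKB 1).2 K.one_mem
  set H : Subgroup G := K.comap (QuotientGroup.mk' (scal ρ)) with hHdef
  set W : Submodule ℂ (Fin n → ℂ) := Submodule.span ℂ (Set.range fun h : H => ρ h y) with hWdef
  have hmap : ∀ h ∈ H, ∀ x ∈ W, ρ h x ∈ W := by
    intro h hh x hx
    have h3 : W ≤ W.comap (ρ h) := by
      rw [hWdef, Submodule.span_le]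
      rintro _ ⟨g, rfl⟩
      show ρ h (ρ g y) ∈ Submodule.span ℂ (Set.range fun h : H => ρ h y)
      rw [← mul_app]
      exact Submodule.subset_span ⟨⟨h * g, H.mul_mem hh g.2⟩, rfl⟩
    exact h3 hx
  have hyW : y ∈ W := Submodule.subset_span ⟨1, by simp⟩
  let T : H → Module.End ℂ W := fun h => (ρ h).restrict (hmap h h.2)
  have hTc : ∀ i j, Commute (T i) (T j) := by
    intro i j
    apply LinearMap.ext
    intro v
    apply Subtype.ext
    exact hcomm i i.2 j j.2 v v.2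
  have hTs : ∀ i, Module.End.IsSemisimple (T i) := by
    intro i
    have hm : 0 < orderOf (i : G) := orderOf_pos _
    have hpow : ∀ (k : ℕ) (v : W), (((T i) ^ k) v : Fin n → ℂ) = ρ ((i : G) ^ k) v := by
      intro k
      induction k with
      | zero => intro v; simp
      | succ k ih =>
        intro v
        rw [pow_succ, Module.End.mul_apply, ih, pow_succ, mul_app]
        rfl
    refine Module.End.isSemisimple_of_squarefree_aeval_eq_zero
      (p := Polynomial.X ^ orderOf (i : G) - Polynomial.C 1)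
      (Polynomial.separable_X_pow_sub_C 1 (by exact_mod_cast hm.ne') one_ne_zero).squarefree ?_
    rw [map_sub, map_pow, Polynomial.aeval_X, Polynomial.aeval_C, sub_eq_zero]
    apply LinearMap.ext
    intro v
    apply Subtype.ext
    rw [hpow, pow_orderOf_eq_one, map_one]
    simp
  obtain ⟨r, u, hu⟩ := exists_eigenbasis T hTc hTs
  have hξ : ∀ k, ∃ g : (Fin n → ℂ) →ₗ[ℂ] ℂ, g ∘ₗ W.subtype = u.coord k :=
    fun k => LinearMap.exists_extend (u.coord k)
  choose ξ hξ using hξ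
  have hα : ∀ k, ∃ A : H →* ℂˣ, ∀ h : H,
      ρ h (u k : Fin n → ℂ) = (A h : ℂ) • (u k : Fin n → ℂ) := by
    intro k
    refine exists_char H (v0 := (u k : Fin n → ℂ)) (fun h => u.ne_zero k (Subtype.ext h)) ?_
    intro g hg
    obtain ⟨a, ha⟩ := hu ⟨g, hg⟩ k
    exact ⟨a, congrArg Subtype.val ha⟩
  choose α hα using hα
  have hξ' : ∀ k (v : W), ξ k v = u.repr v k := fun k v => by
    have h1 := LinearMap.congr_fun (hξ k) v
    simpa using h1
  obtain ⟨μ, hμ1, hμ2, hμ3⟩ := exists_mono hI hρ hst hfree hde H W hmap u ξ hξ' α hα χ hχ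
    hy0 hy hyW
  have hM : (∏ k, lf (ξ k) ^ μ k).IsHomogeneous e := by
    have h1 : (∏ k, lf (ξ k) ^ μ k).IsHomogeneous (∑ k, 1 * μ k) :=
      IsHomogeneous.prod _ _ _ fun k _ => (lf_hom _).pow _
    simp only [one_mul] at h1
    have h2 : ∑ k, μ k = e := by rw [← hμ1, Finsupp.degree_eq_sum]
    rwa [h2] at h1
  have hMe : ∀ x, eval x (∏ k, lf (ξ k) ^ μ k) = ∏ k, ξ k x ^ μ k := by
    intro x
    simp only [map_prod, map_pow, eval_lf]
  obtain ⟨T', hT1, hT2⟩ := exists_maps (orb ρ y) e B ⟨1, hB1⟩ hmax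
  obtain ⟨P, hP, hP1, hP2⟩ := exists_ext_form T' _ hM
  refine average_sum P hP χ ?_
  have hval : ∀ g, (((χ g)⁻¹ : ℂˣ) : ℂ) * eval (ρ g y) P
      = if g ∈ H then ∏ k, ξ k y ^ μ k else 0 := by
    intro g
    split_ifs with hg
    · have hgW : ρ g y ∈ Submodule.span ℂ (orb ρ y '' (B : Set (G ⧸ scal ρ))) := by
        rw [hspan]
        exact hmap g hg y hyW
      rw [hP1 _ fun i => hT1 i _ hgW, hMe]
      have h2 := hμ2 ⟨g, hg⟩
      simp only at h2
      rw [h2, ← mul_assoc, Units.inv_mul, one_mul]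
    · have h1 : (g : G ⧸ scal ρ) ∉ B := fun h => hg ((hKB _).1 h)
      obtain ⟨ν, hν⟩ := out_rel (ρ := ρ) g
      have h3 : ρ g y = fun k => ν * orb ρ y (g : G ⧸ scal ρ) k := by
        rw [hν]
        rfl
      rw [h3, eval_smul' hP, hP2 _ (hT2 _ h1), mul_zero, mul_zero]
  rw [Finset.sum_congr rfl fun g _ => hval g, ← Finset.sum_filter, Finset.sum_const, nsmul_eq_mul]
  refine mul_ne_zero ?_ hμ3
  rw [Nat.cast_ne_zero]
  refine Finset.card_ne_zero_of_mem (a := (1 : G)) ?_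
  rw [Finset.mem_filter]
  exact ⟨Finset.mem_univ _, H.one_mem⟩

end Pool.Agent.W5h63.FJ
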