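import Mathlib

set_option autoImplicit false

/-!
# Sets of elements of a group which maximise `|A| - e d(A)` for an invariant submodular function `d`
-/

open Finset

namespace Pool.Agent.W5h63.FJ

variable {Q : Type} [Group Q] [Fintype Q] [DecidableEq Q]

/-- Left translate. -/
def tr (q : Q) (A : Finset Q) : Finset Q := A.image (q * ·)

theorem mem_tr {q x : Q} {A : Finset Q} : x ∈ tr q A ↔ q⁻¹ * x ∈ A := by
  unfold tr
  rw [mem_image]
  constructor
  · rintro ⟨a, ha, rfl⟩
    simpa using ha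
  · intro h
    exact ⟨_, h, by simp⟩

theorem card_tr (q : Q) (A : Finset Q) : (tr q A).card = A.card :=
  card_image_of_injective A (mul_right_injective q)

/-- A subgroup maximises `|A| - e d(A)` among the nonempty sets. -/
theorem exists_max_subgroup (d : Finset Q → ℕ) (e : ℕ)
    (hsub : ∀ A B, d (A ∪ B) + d (A ∩ B) ≤ d A + d B) (hinv : ∀ q A, d (tr q A) = d A) :
    ∃ (H : Subgroup Q) (B : Finset Q), (∀ x, x ∈ B ↔ x ∈ H) ∧
      ∀ A : Finset Q, A.Nonempty → (A.card : ℤ) - e * d A ≤ (B.card : ℤ) - e * d B := by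
  classical
  let φ : Finset Q → ℤ := fun A => (A.card : ℤ) - e * d A
  have hφt : ∀ q A, φ (tr q A) = φ A := by
    intro q A
    simp only [φ]
    rw [card_tr, hinv]
  let N : Finset (Finset Q) := univ.filter fun A => A.Nonempty
  have hN : N.Nonempty := ⟨{1}, by simp [N]⟩
  obtain ⟨A₀, hA₀, hmax⟩ := exists_max_image N φ hN
  let M : Finset (Finset Q) := N.filter fun A => φ A = φ A₀
  obtain ⟨A₁, hA₁, hmin⟩ := exists_min_image M Finset.card ⟨A₀, by simp [M, hA₀]⟩
  have hA₁N : A₁.Nonempty := by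
    have := (mem_filter.1 hA₁).1
    exact (mem_filter.1 this).2
  have hA₁φ : φ A₁ = φ A₀ := (mem_filter.1 hA₁).2
  obtain ⟨a, ha⟩ := hA₁N
  set A := tr a⁻¹ A₁ with hA
  have h1A : (1 : Q) ∈ A := by rw [hA, mem_tr]; simpa using ha
  have hAφ : φ A = φ A₀ := by rw [hA, hφt, hA₁φ]
  have hAc : A.card = A₁.card := card_tr _ _
  have key : ∀ g ∈ A, tr g⁻¹ A = A := by
    intro g hg
    set B := tr g⁻¹ A with hB
    have h1B : (1 : Q) ∈ B := by rw [hB, mem_tr]; simpa using hg
    have hBφ : φ B = φ A₀ := by rw [hB, hφt, hAφ]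
    have hI : (A ∩ B).Nonempty := ⟨1, mem_inter.2 ⟨h1A, h1B⟩⟩
    have hU : (A ∪ B).Nonempty := ⟨1, mem_union_left _ h1A⟩
    have h1 : φ (A ∪ B) ≤ φ A₀ := hmax _ (by simp only [N, mem_filter, mem_univ, true_and]; exact hU)
    have h2 : φ (A ∩ B) ≤ φ A₀ := hmax _ (by simp only [N, mem_filter, mem_univ, true_and]; exact hI)
    have h3 : φ A + φ B ≤ φ (A ∪ B) + φ (A ∩ B) := by
      simp only [φ]
      have h4 := card_union_add_card_inter A B
      have h5 := hsub A B
      have h6 : ((A ∪ B).card : ℤ) + (A ∩ B).card = A.card + B.card := by exact_mod_cast h4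
      have h7 : ((d (A ∪ B) : ℤ) + d (A ∩ B)) ≤ d A + d B := by exact_mod_cast h5
      have h8 := mul_le_mul_of_nonneg_left h7 (by positivity : (0:ℤ) ≤ e)
      linarith
    have h4 : φ (A ∩ B) = φ A₀ := by linarith
    have h5 : A₁.card ≤ (A ∩ B).card := hmin _ (by
      simp only [M, N, mem_filter, mem_univ, true_and]
      exact ⟨hI, h4⟩)
    have h6 : A ∩ B = A := eq_of_subset_of_card_le inter_subset_left (by rw [hAc]; exact h5)
    have h7 : A ⊆ B := by rw [← h6]; exact inter_subset_right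
    exact (eq_of_subset_of_card_le h7 (by rw [hB, card_tr])).symm
  let H : Subgroup Q :=
    { carrier := {x | x ∈ A}
      mul_mem' := by
        intro g h hg hh
        have h1 : h ∈ tr g⁻¹ A := by rw [key g hg]; exact hh
        rw [mem_tr] at h1
        simpa using h1
      one_mem' := h1A
      inv_mem' := by
        intro g hg
        have h1 : g⁻¹ ∈ tr g⁻¹ A := by rw [mem_tr]; simpa using h1A
        rw [key g hg] at h1
        exact h1 }
  refine ⟨H, A, fun x => Iff.rfl, fun C hC => ?_⟩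
  have h1 : φ C ≤ φ A₀ := hmax _ (by simp only [N, mem_filter, mem_univ, true_and]; exact hC)
  calc φ C ≤ φ A₀ := h1
    _ = φ A := hAφ.symm

end Pool.Agent.W5h63.FJ
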