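import Pool.Agent.R31.Partition
import Pool.Agent.W5h63.FJ.Uncross

set_option autoImplicit false

/-!
# Separating a vector from a set of vectors by a product of linear forms
-/

namespace Pool.Agent.W5h63.FJ

open MvPolynomial Module Finset

/-- The linear form of a functional. -/
noncomputable def lf {n : ℕ} (φ : (Fin n → ℂ) →ₗ[ℂ] ℂ) : MvPolynomial (Fin n) ℂ :=
  ∑ i, C (φ (Pi.single i 1)) * X i

theorem eval_lf {n : ℕ} (φ : (Fin n → ℂ) →ₗ[ℂ] ℂ) (x : Fin n → ℂ) : eval x (lf φ) = φ x := by
  unfold lf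
  rw [map_sum]
  have h1 : x = ∑ i, x i • (Pi.single i (1 : ℂ) : Fin n → ℂ) := by
    funext j
    simp [Finset.sum_apply, Pi.single_apply]
  conv_rhs => rw [h1]
  rw [map_sum]
  refine Finset.sum_congr rfl fun i _ => ?_
  rw [map_mul, eval_C, eval_X, map_smul, smul_eq_mul, mul_comm]

theorem lf_hom {n : ℕ} (φ : (Fin n → ℂ) →ₗ[ℂ] ℂ) : (lf φ).IsHomogeneous 1 :=
  IsHomogeneous.sum _ _ _ fun i _ => isHomogeneous_C_mul_X _ _

variable {V : Type} [AddCommGroup V] [Module ℂ V] [FiniteDimensional ℂ V] {Q : Type}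
  [DecidableEq Q]

/-- The rank of a set of vectors. -/
noncomputable def dm (v : Q → V) (A : Finset Q) : ℕ :=
  finrank ℂ (Submodule.span ℂ (v '' (A : Set Q)))

theorem dm_submod (v : Q → V) (A B : Finset Q) : dm v (A ∪ B) + dm v (A ∩ B) ≤ dm v A + dm v B := by
  unfold dm
  rw [coe_union, Set.image_union, Submodule.span_union]
  have h1 := Submodule.finrank_sup_add_finrank_inf_eq (Submodule.span ℂ (v '' (A : Set Q)))
    (Submodule.span ℂ (v '' (B : Set Q)))
  have h2 : Submodule.span ℂ (v '' ((A ∩ B : Finset Q) : Set Q))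
      ≤ Submodule.span ℂ (v '' (A : Set Q)) ⊓ Submodule.span ℂ (v '' (B : Set Q)) := by
    refine le_inf (Submodule.span_mono (Set.image_mono ?_))
      (Submodule.span_mono (Set.image_mono ?_))
    · exact_mod_cast inter_subset_left
    · exact_mod_cast inter_subset_right
  have h3 := Submodule.finrank_mono h2
  omega

theorem dm_mono (v : Q → V) {A B : Finset Q} (h : A ⊆ B) : dm v A ≤ dm v B :=
  Submodule.finrank_mono (Submodule.span_mono (Set.image_mono (by exact_mod_cast h)))

theorem dm_singleton_le (v : Q → V) (a : Q) : dm v {a} ≤ 1 := by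
  unfold dm
  rw [coe_singleton, Set.image_singleton]
  have h := finrank_span_le_card (R := ℂ) ({v a} : Set V)
  simpa using h

theorem dm_insert_le (v : Q → V) (A : Finset Q) (a : Q) : dm v (insert a A) ≤ dm v A + 1 := by
  have h1 := dm_submod v {a} A
  have h2 := dm_singleton_le v a
  rw [← insert_eq] at h1
  omega

theorem isRank (v : Q → V) (q₀ : Q) :
    Pool.Agent.R31.Partition.IsRank fun A => dm v ({q₀} ∪ A) := by
  have h : Pool.Agent.R31.Partition.IsRank (dm v) :=
    ⟨fun A B h => dm_mono v h, dm_submod v, fun A a => dm_insert_le v A a⟩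
  exact h.contract {q₀}

/-- The vectors `v q`, `q ≠ q₀`, can be separated from `v q₀` by `e` linear forms. -/
theorem exists_forms [Fintype Q] (v : Q → V) (q₀ : Q) (hq₀ : v q₀ ≠ 0) (e : ℕ)
    (h : ∀ A : Finset Q, A.Nonempty → (A.card : ℤ) - e * dm v A ≤ 1 - e) :
    ∃ φ : Fin e → (V →ₗ[ℂ] ℂ), (∀ i, φ i (v q₀) ≠ 0) ∧ ∀ q, q ≠ q₀ → ∃ i, φ i (v q) = 0 := by
  classical
  have h1 : dm v {q₀} = 1 := by
    unfold dm
    rw [coe_singleton, Set.image_singleton]
    exact finrank_span_singleton hq₀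
  rcases Nat.eq_zero_or_pos e with rfl | he
  · refine ⟨fun i => i.elim0, fun i => i.elim0, fun q hq => ?_⟩
    exfalso
    have h2 := h {q, q₀} ⟨q, by simp⟩
    rw [card_pair hq] at h2
    simp at h2
  have : Nonempty (Fin e) := ⟨⟨0, he⟩⟩
  obtain ⟨f, hf⟩ := Pool.Agent.R31.Partition.partition (ι := Fin e) _ (univ.erase q₀)
    (fun _ A => dm v ({q₀} ∪ A)) (fun _ => isRank v q₀) rfl (by
      intro A hA
      have h3 : q₀ ∉ A := fun h4 => by simpa using hA h4
      have h2 := h ({q₀} ∪ A) ⟨q₀, by simp⟩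
      rw [← insert_eq, card_insert_of_notMem h3] at h2
      simp only [union_empty, sum_const, card_univ, Fintype.card_fin, smul_eq_mul, h1]
      rw [← insert_eq]
      zify
      push_cast at h2
      linarith)
  have key : ∀ i, ∃ φ : V →ₗ[ℂ] ℂ, φ (v q₀) ≠ 0 ∧
      ∀ q ∈ (univ.erase q₀).filter (fun a => f a = i), φ (v q) = 0 := by
    intro i
    set A := (univ.erase q₀).filter (fun a => f a = i) with hA
    have h2 : v q₀ ∉ Submodule.span ℂ (v '' (A : Set Q)) := by
      intro hcon
      have h3 := hf i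
      simp only [union_empty, h1] at h3
      have h4 : dm v ({q₀} ∪ A) ≤ A.card := by
        have h5 : Submodule.span ℂ (v '' (({q₀} ∪ A : Finset Q) : Set Q))
            ≤ Submodule.span ℂ (v '' (A : Set Q)) := by
          rw [Submodule.span_le]
          rintro _ ⟨q, hq, rfl⟩
          have hq' : q ∈ ({q₀} ∪ A : Finset Q) := hq
          rw [mem_union, mem_singleton] at hq'
          rcases hq' with rfl | hq'
          · exact hcon
          · exact Submodule.subset_span ⟨q, hq', rfl⟩
        refine (Submodule.finrank_mono h5).trans ?_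
        rw [← coe_image]
        exact (finrank_span_finset_le_card _).trans card_image_le
      rw [← hA] at h3
      omega
    obtain ⟨φ, hφ1, hφ2⟩ := Submodule.exists_le_ker_of_notMem h2
    exact ⟨φ, hφ1, fun q hq => hφ2 (Submodule.subset_span ⟨q, hq, rfl⟩)⟩
  choose φ hφ1 hφ2 using key
  exact ⟨φ, hφ1, fun q hq => ⟨f q, hφ2 (f q) q (by simp [hq])⟩⟩

end Pool.Agent.W5h63.FJ
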