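import Pool.Agent.TH144.MB.Mult
import Pool.Agent.W5h63.FJ.Forms

set_option autoImplicit false

/-!
# Extension of forms from a subspace with prescribed zeros
-/

namespace Pool.Agent.W5h63.FJ

open MvPolynomial Module Finset

variable {n : ℕ}

/-- Monomials are products of coordinates. -/
theorem exists_fun (m : Fin n →₀ ℕ) (e : ℕ) (hm : m.degree = e) :
    ∃ j : Fin e → Fin n, ∀ x : Fin n → ℂ, ∏ i, x (j i) = ∏ k, x k ^ m k := by
  obtain ⟨l, hl⟩ := Quot.exists_rep (Finsupp.toMultiset m)
  have hl' : (l : Multiset (Fin n)) = Finsupp.toMultiset m := hl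
  have hlen : l.length = e := by
    have h1 : Multiset.card (Finsupp.toMultiset m) = e := by
      rw [Finsupp.card_toMultiset, ← hm]
      rfl
    rw [← hl'] at h1
    simpa using h1
  subst hlen
  refine ⟨fun i => l[i.1], fun x => ?_⟩
  rw [Fin.prod_univ_fun_getElem]
  have h2 : (l.map x).prod = ((l : Multiset (Fin n)).map x).prod := by simp
  rw [h2, hl', Finsupp.toMultiset_map, Finsupp.prod_toMultiset, Finsupp.prod_mapDomain_index
    (fun _ => pow_zero _) (fun _ _ _ => pow_add _ _ _), Finsupp.prod_fintype _ _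
    (fun _ => pow_zero _)]

/-- A form of degree `e` as a form in `e` vector variables. -/
theorem exists_ext_form {e : ℕ} (T : Fin e → ((Fin n → ℂ) →ₗ[ℂ] (Fin n → ℂ)))
    (F : MvPolynomial (Fin n) ℂ) (hF : F.IsHomogeneous e) :
    ∃ F' : MvPolynomial (Fin n) ℂ, F'.IsHomogeneous e ∧
      (∀ x, (∀ i, T i x = x) → eval x F' = eval x F) ∧
      (∀ x, (∃ i, T i x = 0) → eval x F' = 0) := by
  classical
  have hj : ∀ m : Fin n →₀ ℕ, m ∈ F.support →
      ∃ j : Fin e → Fin n, ∀ x : Fin n → ℂ, ∏ i, x (j i) = ∏ k, x k ^ m k := by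
    intro m hm
    refine exists_fun m e ?_
    by_contra hne
    exact (mem_support_iff.1 hm) (hF.coeff_eq_zero hne)
  choose j hj using hj
  have hev : ∀ x, eval x (∑ m ∈ F.support.attach, C (coeff m.1 F) *
      ∏ i, lf ((LinearMap.proj (j m.1 m.2 i) : (Fin n → ℂ) →ₗ[ℂ] ℂ) ∘ₗ T i))
      = ∑ m ∈ F.support.attach, coeff m.1 F * ∏ i, (T i x) (j m.1 m.2 i) := by
    intro x
    simp only [map_sum, map_mul, map_prod, eval_C, eval_lf, LinearMap.comp_apply,
      LinearMap.proj_apply]
  refine ⟨∑ m ∈ F.support.attach, C (coeff m.1 F) *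
      ∏ i, lf ((LinearMap.proj (j m.1 m.2 i) : (Fin n → ℂ) →ₗ[ℂ] ℂ) ∘ₗ T i), ?_,
      fun x hx => ?_, fun x hx => ?_⟩
  · refine IsHomogeneous.sum _ _ _ fun m _ => ?_
    have h1 : (∏ i, lf ((LinearMap.proj (j m.1 m.2 i) : (Fin n → ℂ) →ₗ[ℂ] ℂ) ∘ₗ T i)).IsHomogeneous
        (∑ _i : Fin e, 1) := IsHomogeneous.prod _ _ _ fun i _ => lf_hom _
    have h2 := (isHomogeneous_C (Fin n) (coeff m.1 F)).mul h1
    simpa using h2
  · rw [hev, eval_eq', ← Finset.sum_attach F.support (fun m => coeff m F * ∏ k, x k ^ m k)]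
    refine Finset.sum_congr rfl fun m _ => ?_
    simp only [hx]
    rw [hj m.1 m.2]
  · rw [hev]
    obtain ⟨i, hi⟩ := hx
    refine Finset.sum_eq_zero fun m _ => ?_
    rw [Finset.prod_eq_zero (Finset.mem_univ i), mul_zero]
    rw [hi, Pi.zero_apply]

/-- Projections to the span of a maximising set. -/
theorem exists_maps {V : Type} [AddCommGroup V] [Module ℂ V] [FiniteDimensional ℂ V] {Q : Type}
    [DecidableEq Q] [Fintype Q] (v : Q → V) (e : ℕ) (B : Finset Q) (hBne : B.Nonempty)
    (h : ∀ A : Finset Q, A.Nonempty →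
      (A.card : ℤ) - e * dm v A ≤ (B.card : ℤ) - e * dm v B) :
    ∃ T : Fin e → (V →ₗ[ℂ] V), (∀ i, ∀ x ∈ Submodule.span ℂ (v '' (B : Set Q)), T i x = x) ∧
      ∀ q, q ∉ B → ∃ i, T i (v q) = 0 := by
  classical
  rcases Nat.eq_zero_or_pos e with rfl | he
  · refine ⟨fun i => i.elim0, fun i => i.elim0, fun q hq => ?_⟩
    exfalso
    have h2 := h (insert q B) ⟨q, by simp⟩
    rw [card_insert_of_notMem hq] at h2
    push_cast at h2
    linarith
  have : Nonempty (Fin e) := ⟨⟨0, he⟩⟩
  have hr : Pool.Agent.R31.Partition.IsRank fun A => dm v (B ∪ A) :=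
    Pool.Agent.R31.Partition.IsRank.contract
      ⟨fun A B h => dm_mono v h, dm_submod v, fun A a => dm_insert_le v A a⟩ B
  obtain ⟨f, hf⟩ := Pool.Agent.R31.Partition.partition (ι := Fin e) _ (univ \ B)
    (fun _ A => dm v (B ∪ A)) (fun _ => hr) rfl (by
      intro A hA
      have hd : Disjoint B A := by
        rw [Finset.disjoint_left]
        intro x hx hxA
        exact (mem_sdiff.1 (hA hxA)).2 hx
      have h2 := h (B ∪ A) (hBne.mono subset_union_left)
      rw [card_union_of_disjoint hd] at h2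
      simp only [union_empty, sum_const, card_univ, Fintype.card_fin, smul_eq_mul]
      zify
      push_cast at h2
      linarith)
  have key : ∀ i, ∃ T : V →ₗ[ℂ] V, (∀ x ∈ Submodule.span ℂ (v '' (B : Set Q)), T x = x) ∧
      ∀ q ∈ (univ \ B).filter (fun a => f a = i), T (v q) = 0 := by
    intro i
    set A := (univ \ B).filter (fun a => f a = i) with hA
    set W := Submodule.span ℂ (v '' (B : Set Q)) with hW
    set S := Submodule.span ℂ (v '' (A : Set Q)) with hS
    have h1 : finrank ℂ (W ⊔ S : Submodule ℂ V) = finrank ℂ W + A.card := by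
      have h2 := hf i
      simp only [union_empty] at h2
      rw [← hA] at h2
      rw [hW, hS, ← Submodule.span_union, ← Set.image_union, ← coe_union]
      exact h2
    have h2 : finrank ℂ S ≤ A.card := by
      rw [hS, ← coe_image]
      exact (finrank_span_finset_le_card _).trans card_image_le
    have h3 := Submodule.finrank_sup_add_finrank_inf_eq W S
    have h4 : finrank ℂ (W ⊓ S : Submodule ℂ V) = 0 := by omega
    have h5 : W ⊓ S = ⊥ := Submodule.finrank_eq_zero.1 h4
    have h6 : LinearMap.ker (S.mkQ ∘ₗ W.subtype) = ⊥ := by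
      rw [LinearMap.ker_eq_bot']
      intro x hx
      have h7 : (x : V) ∈ S := by
        rw [← Submodule.Quotient.mk_eq_zero S]
        exact hx
      have h8 : (x : V) ∈ W ⊓ S := ⟨x.2, h7⟩
      rw [h5, Submodule.mem_bot] at h8
      exact Subtype.ext h8
    obtain ⟨g, hg⟩ := LinearMap.exists_leftInverse_of_injective _ h6
    refine ⟨W.subtype ∘ₗ g ∘ₗ S.mkQ, ?_, ?_⟩
    · intro x hx
      have h7 := LinearMap.congr_fun hg ⟨x, hx⟩
      simp only [LinearMap.comp_apply, Submodule.subtype_apply, LinearMap.id_apply] at h7 ⊢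
      rw [h7]
    · intro q hq
      have h7 : S.mkQ (v q) = 0 := by
        rw [Submodule.mkQ_apply, Submodule.Quotient.mk_eq_zero]
        exact Submodule.subset_span ⟨q, hq, rfl⟩
      simp only [LinearMap.comp_apply]
      rw [h7, map_zero, map_zero]
  choose T hT1 hT2 using key
  exact ⟨T, hT1, fun q hq => ⟨f q, hT2 (f q) q (by simp [hq])⟩⟩

open Pool.Agent.TH144.MB in
/-- Points of a finite linear section of the zero set can be separated in all degrees `≥ ρ`. -/
theorem sep_finite {I : Ideal (MvPolynomial (Fin n) ℂ)} (hI : Hom I) {ρ₀ : ℕ}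
    (hρ : TopBound I ρ₀) (W : Submodule ℂ (Fin n → ℂ))
    (b : (Fin n → ℂ) →ₗ[ℂ] ℂ) (hb : ∀ v ∈ W, (∀ p ∈ I, eval v p = 0) → b v = 0 → v = 0)
    {y : Fin n → ℂ} (hy0 : y ≠ 0) (hy : ∀ p ∈ I, eval y p = 0) (hyW : y ∈ W)
    (S : Finset (Fin n → ℂ)) (hS : ∀ s ∈ S, s ≠ 0 ∧ (∀ p ∈ I, eval s p = 0) ∧ s ∈ W ∧
      y ∉ Submodule.span ℂ {s}) {e : ℕ} (he : ρ₀ ≤ e) :
    ∃ F : MvPolynomial (Fin n) ℂ, F.IsHomogeneous e ∧ eval y F ≠ 0 ∧ ∀ s ∈ S, eval s F = 0 := by
  classical
  obtain ⟨r, L, hL⟩ := exists_cut W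
  have hJhom : ∀ s : Finset (Fin r), Hom (I ⊔ Ideal.span ((fun i => lin (L i)) '' (s : Set (Fin r)))) := by
    intro s
    induction s using Finset.induction_on with
    | empty =>
      rw [Finset.coe_empty, Set.image_empty, Ideal.span_empty, sup_bot_eq]
      exact hI
    | insert i s _ ih =>
      have h3 := hom_sup ih (lin_hom (L i))
      rw [Finset.coe_insert, Set.image_insert_eq]
      rwa [sup_assoc, ← Ideal.span_union, Set.union_comm, ← Set.insert_eq] at h3
  set J : Ideal (MvPolynomial (Fin n) ℂ) := I ⊔ Ideal.span (Set.range fun i => lin (L i)) with hJ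
  have hJh : Hom J := by
    have h1 := hJhom Finset.univ
    rwa [Finset.coe_univ, Set.image_univ] at h1
  have hJev : ∀ v ∈ W, (∀ p ∈ I, eval v p = 0) → ∀ p ∈ J, eval v p = 0 := by
    intro v hv hv2 p hp
    have h2 : J ≤ RingHom.ker (eval v) := by
      rw [hJ]
      refine sup_le (fun p hp => RingHom.mem_ker.2 (hv2 p hp)) ?_
      rw [Ideal.span_le]
      rintro _ ⟨i, rfl⟩
      exact RingHom.mem_ker.2 ((hL v).1 hv i)
    exact RingHom.mem_ker.1 (h2 hp)
  have hby : b y ≠ 0 := fun h => hy0 (hb y hyW hy h)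
  have key : ∀ (k t : ℕ), ρ₀ ≤ t → S.card ≤ t + k →
      ∃ F : MvPolynomial (Fin n) ℂ, F.IsHomogeneous t ∧ eval y F ≠ 0 ∧ ∀ s ∈ S, eval s F = 0 := by
    intro k
    induction k with
    | zero =>
      intro t _ ht
      have hsep : ∀ s ∈ S, ∃ φ : (Fin n → ℂ) →ₗ[ℂ] ℂ, φ y ≠ 0 ∧ φ s = 0 := by
        intro s hs
        obtain ⟨φ, h1, h2⟩ := Submodule.exists_le_ker_of_notMem (hS s hs).2.2.2
        exact ⟨φ, h1, h2 (Submodule.mem_span_singleton_self s)⟩
      choose! φ hφ1 hφ2 using hsep
      refine ⟨(∏ s ∈ S, lf (φ s)) * lf b ^ (t - S.card), ?_, ?_, ?_⟩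
      · have h1 : (∏ s ∈ S, lf (φ s)).IsHomogeneous (∑ _s ∈ S, 1) :=
          IsHomogeneous.prod _ _ _ fun s _ => lf_hom _
        have h2 := h1.mul ((lf_hom b).pow (t - S.card))
        rw [Finset.sum_const, smul_eq_mul, mul_one, one_mul] at h2
        convert h2 using 1
        omega
      · rw [map_mul, map_prod, map_pow, eval_lf]
        refine mul_ne_zero (Finset.prod_ne_zero_iff.2 fun s hs => ?_) (pow_ne_zero _ hby)
        rw [eval_lf]
        exact hφ1 s hs
      · intro s hs
        rw [map_mul, map_prod, Finset.prod_eq_zero hs, zero_mul]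
        rw [eval_lf]
        exact hφ2 s hs
    | succ k ih =>
      intro t ht htk
      obtain ⟨F, hF, hFy, hFS⟩ := ih (t + 1) (by omega) (by omega)
      have htop := hρ (r + 1)
        (Fin.cons (fun i => b (Pi.single i 1)) L) (by
          intro v hv hv2
          have h1 : v ∈ W := by
            rw [hL]
            intro i
            have h2 := hv2 i.succ
            simpa using h2
          refine hb v h1 hv ?_
          have h2 := hv2 0
          rw [Fin.cons_zero, dual_eq] at h2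
          exact h2) (1 + t) (by omega) F (by rwa [add_comm] at hF)
      have h3 : F ∈ J ⊔ Ideal.span {lf b} := by
        refine (sup_le ?_ ?_ : I ⊔ Ideal.span (Set.range fun i =>
          lin ((Fin.cons (fun i => b (Pi.single i 1)) L : Fin (r + 1) → Fin n → ℂ) i))
            ≤ J ⊔ Ideal.span {lf b}) htop
        · exact le_sup_left.trans le_sup_left
        · rw [Ideal.span_le]
          rintro _ ⟨i, rfl⟩
          refine Fin.cases ?_ (fun i => ?_) i
          · exact Ideal.mem_sup_right (Ideal.subset_span rfl)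
          · exact Ideal.mem_sup_left (Ideal.mem_sup_right (Ideal.subset_span ⟨i, rfl⟩))
      obtain ⟨q, hq, hFq⟩ := mem_sup_hom hJh (lf_hom b) (by rwa [add_comm] at hF) h3
      have h4 : ∀ v ∈ W, (∀ p ∈ I, eval v p = 0) → eval v F = b v * eval v q := by
        intro v hv hv2
        have h5 := hJev v hv hv2 _ hFq
        rw [map_sub, map_mul, eval_lf, sub_eq_zero] at h5
        exact h5
      refine ⟨q, hq, ?_, ?_⟩
      · intro h5
        apply hFy
        rw [h4 y hyW hy, h5, mul_zero]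
      · intro s hs
        obtain ⟨h5, h6, h7, _⟩ := hS s hs
        have h8 := h4 s h7 h6
        rw [hFS s hs] at h8
        rcases mul_eq_zero.1 h8.symm with h9 | h9
        · exact absurd (hb s h7 h6 h9) h5
        · exact h9
  exact key S.card e he (by omega)

end Pool.Agent.W5h63.FJ
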