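import Pool.Agent.W5h63.FJ.Main

set_option autoImplicit false

/-!
# Groups acting freely on hypersurfaces
-/

namespace Pool.Agent.W5h63.FJ

open MvPolynomial Module

variable {G : Type} [Group G] {n : ℕ} {ρ : Representation ℂ G (Fin n → ℂ)}

open Pool.Agent.TH144.MB in
/-- A form of positive degree has a zero on every plane. -/
theorem exists_zero {f : MvPolynomial (Fin n) ℂ} {d : ℕ} (hf : f.IsHomogeneous d) (hd : 0 < d)
    {u v : Fin n → ℂ} (h : LinearIndependent ℂ ![u, v]) :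
    ∃ w, w ≠ 0 ∧ eval w f = 0 ∧ ∃ a b : ℂ, w = a • u + b • v := by
  classical
  by_cases hv : eval v f = 0
  · exact ⟨v, h.ne_zero 1, hv, 0, 1, by simp⟩
  have hdeg : (res u v f).degree ≠ 0 := by
    intro hdeg
    obtain ⟨c0, hc0⟩ : ∃ c0, res u v f = Polynomial.C c0 :=
      ⟨_, Polynomial.eq_C_of_degree_eq_zero hdeg⟩
    have h1 : ∀ τ : ℂ, eval (fun i => u i + τ * v i) f = c0 := by
      intro τ
      rw [← eval_res, hc0, Polynomial.eval_C]
    have h2 : Polynomial.X * (res v u f - Polynomial.C c0 * Polynomial.X ^ d) = 0 := by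
      apply Polynomial.funext
      intro s
      rw [Polynomial.eval_mul, Polynomial.eval_X, Polynomial.eval_zero]
      by_cases hs : s = 0
      · rw [hs, zero_mul]
      · have h3 : (fun k => v k + s * u k) = fun k => s * (u k + s⁻¹ * v k) := by
          funext k
          field_simp
          ring
        rw [Polynomial.eval_sub, eval_res, h3, eval_smul' hf, h1, Polynomial.eval_mul,
          Polynomial.eval_C, Polynomial.eval_pow, Polynomial.eval_X]
        ring
    rcases mul_eq_zero.1 h2 with h3 | h3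
    · exact absurd h3 Polynomial.X_ne_zero
    · have h4 := congrArg (Polynomial.eval 0) h3
      rw [Polynomial.eval_sub, eval_res, Polynomial.eval_mul, Polynomial.eval_pow,
        Polynomial.eval_X, zero_pow hd.ne', mul_zero, sub_zero, Polynomial.eval_zero] at h4
      apply hv
      rw [← h4]
      congr 1
      congr 1
      funext k
      simp
  obtain ⟨τ, hτ⟩ := IsAlgClosed.exists_root _ hdeg
  rw [Polynomial.IsRoot, eval_res] at hτ
  refine ⟨fun i => u i + τ * v i, ?_, hτ, 1, τ, ?_⟩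
  · intro h0
    have h1 := LinearIndependent.pair_iff.1 h 1 τ (by
      funext i
      simpa using congrFun h0 i)
    exact one_ne_zero h1.1
  · funext i
    simp

theorem pow_app {h : G} {μ : ℂ} {v : Fin n → ℂ} (hv : ρ h v = μ • v) (k : ℕ) :
    ρ (h ^ k) v = μ ^ k • v := by
  induction k with
  | zero => simp
  | succ k ih => rw [pow_succ, mul_app, hv, map_smul, ih, smul_smul, pow_succ, mul_comm]

theorem scal_ne_zero [Nontrivial (Fin n → ℂ)] {h : G} {ν : ℂ} (hν : ∀ x, ρ h x = ν • x) :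
    ν ≠ 0 := by
  rintro rfl
  obtain ⟨x, hx⟩ := exists_ne (0 : Fin n → ℂ)
  apply hx
  have h1 := hν x
  rw [zero_smul] at h1
  have h2 := inv_app (ρ := ρ) h x
  rw [h1, map_zero] at h2
  exact h2.symm

theorem iSup_eig (h : G) (p : ℕ) (hp : 0 < p) (hhp : h ^ p ∈ scal ρ) :
    (⨆ μ : ℂ, Module.End.eigenspace (ρ h) μ) = ⊤ := by
  obtain ⟨ν, hν⟩ := hhp
  rcases subsingleton_or_nontrivial (Fin n → ℂ) with hs | hs
  · exact Subsingleton.elim _ _
  have hν0 : ν ≠ 0 := scal_ne_zero hν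
  have h1 : Polynomial.aeval (ρ h) (Polynomial.X ^ p - Polynomial.C ν) = 0 := by
    rw [map_sub, map_pow, Polynomial.aeval_X, Polynomial.aeval_C, sub_eq_zero, ← map_pow]
    apply LinearMap.ext
    intro x
    rw [hν x]
    rfl
  have hss : Module.End.IsSemisimple (ρ h) := Module.End.isSemisimple_of_squarefree_aeval_eq_zero
    (Polynomial.separable_X_pow_sub_C ν (by exact_mod_cast hp.ne') hν0).squarefree h1
  rw [← Module.End.iSup_maxGenEigenspace_eq_top (ρ h)]
  congr 1
  funext μ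
  exact (hss.isFinitelySemisimple.maxGenEigenspace_eq_eigenspace μ).symm

theorem exists_two {h : G} (hh : h ∉ scal ρ) {p : ℕ} (hp : 0 < p) (hhp : h ^ p ∈ scal ρ) :
    ∃ (v0 v1 : Fin n → ℂ) (μ0 μ1 : ℂ), v0 ≠ 0 ∧ v1 ≠ 0 ∧ ρ h v0 = μ0 • v0 ∧
      ρ h v1 = μ1 • v1 ∧ μ0 ≠ μ1 := by
  have hnt : Nontrivial (Fin n → ℂ) := by
    by_contra hcon
    rw [not_nontrivial_iff_subsingleton] at hcon
    exact hh ⟨1, fun x => Subsingleton.elim _ _⟩
  obtain ⟨μ0, hμ0⟩ := Module.End.exists_eigenvalue (ρ h)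
  obtain ⟨v0, hv0⟩ := hμ0.exists_hasEigenvector
  by_contra hcon
  push Not at hcon
  apply hh
  have h1 : ∀ μ, Module.End.eigenspace (ρ h) μ ≤ Module.End.eigenspace (ρ h) μ0 := by
    intro μ v hv
    rcases eq_or_ne v 0 with rfl | hv'
    · exact zero_mem _
    · have h2 := hcon v0 v μ0 μ hv0.2 hv' hv0.apply_eq_smul (Module.End.mem_eigenspace_iff.1 hv)
      rw [h2]
      exact hv
  have h2 : Module.End.eigenspace (ρ h) μ0 = ⊤ := by
    rw [eq_top_iff, ← iSup_eig h p hp hhp]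
    exact iSup_le h1
  refine ⟨μ0, fun x => ?_⟩
  have h3 : x ∈ Module.End.eigenspace (ρ h) μ0 := by
    rw [h2]
    exact Submodule.mem_top
  exact Module.End.mem_eigenspace_iff.1 h3

section
variable {f : MvPolynomial (Fin n) ℂ} {d : ℕ}

theorem eig_unique (hf : f.IsHomogeneous d) (hd : 0 < d)
    (hfree : ∀ v, v ≠ 0 → eval v f = 0 → ∀ g (μ : ℂ), ρ g v = μ • v → g ∈ scal ρ)
    {g : G} (hg : g ∉ scal ρ) {μ : ℂ} {u v : Fin n → ℂ} (hu0 : u ≠ 0) (hu : ρ g u = μ • u)
    (hv : ρ g v = μ • v) : ∃ a : ℂ, v = a • u := by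
  by_contra hcon
  push Not at hcon
  have hli : LinearIndependent ℂ ![u, v] := by
    rw [LinearIndependent.pair_iff' hu0]
    intro a ha
    exact hcon a ha.symm
  obtain ⟨w, hw0, hwf, a, b, rfl⟩ := exists_zero hf hd hli
  apply hg
  refine hfree _ hw0 hwf g μ ?_
  rw [map_add, map_smul, map_smul, hu, hv, smul_add, smul_comm a, smul_comm b]

theorem dim_le (hf : f.IsHomogeneous d) (hd : 0 < d)
    (hfree : ∀ v, v ≠ 0 → eval v f = 0 → ∀ g (μ : ℂ), ρ g v = μ • v → g ∈ scal ρ)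
    {h : G} (hh : h ∉ scal ρ) {p : ℕ} (hp : 0 < p) (hhp : h ^ p ∈ scal ρ) : n ≤ p := by
  classical
  obtain ⟨ν, hν⟩ := hhp
  set R := (Polynomial.X ^ p - Polynomial.C ν : Polynomial ℂ).roots.toFinset with hRdef
  have hpol : (Polynomial.X ^ p - Polynomial.C ν : Polynomial ℂ) ≠ 0 :=
    Polynomial.X_pow_sub_C_ne_zero hp ν
  have hR : R.card ≤ p := (Multiset.toFinset_card_le _).trans
    ((Polynomial.card_roots' _).trans (by rw [Polynomial.natDegree_X_pow_sub_C]))
  have key : ∀ μ : ℂ, ∃ u : Fin n → ℂ, Module.End.eigenspace (ρ h) μ ≤ Submodule.span ℂ {u} := by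
    intro μ
    by_cases hb : ∃ u ∈ Module.End.eigenspace (ρ h) μ, u ≠ 0
    · obtain ⟨u, hu, hu0⟩ := hb
      refine ⟨u, fun v hv => ?_⟩
      obtain ⟨a, ha⟩ := eig_unique hf hd hfree hh hu0 (Module.End.mem_eigenspace_iff.1 hu)
        (Module.End.mem_eigenspace_iff.1 hv)
      rw [ha]
      exact Submodule.smul_mem _ _ (Submodule.mem_span_singleton_self u)
    · push Not at hb
      refine ⟨0, fun v hv => ?_⟩
      rw [hb v hv]
      exact zero_mem _
  choose u hu using key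
  have hspan : (⊤ : Submodule ℂ (Fin n → ℂ))
      ≤ Submodule.span ℂ ((R.image u : Finset (Fin n → ℂ)) : Set (Fin n → ℂ)) := by
    rw [← iSup_eig h p hp ⟨ν, hν⟩]
    refine iSup_le fun μ => ?_
    by_cases hb : ∃ v ∈ Module.End.eigenspace (ρ h) μ, v ≠ 0
    · obtain ⟨v, hv, hv0⟩ := hb
      have hμR : μ ∈ R := by
        rw [hRdef, Multiset.mem_toFinset, Polynomial.mem_roots hpol, Polynomial.IsRoot,
          Polynomial.eval_sub, Polynomial.eval_pow, Polynomial.eval_X, Polynomial.eval_C,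
          sub_eq_zero]
        have h1 := pow_app (Module.End.mem_eigenspace_iff.1 hv) p
        rw [hν v] at h1
        exact (smul_left_injective ℂ hv0 h1).symm
      refine (hu μ).trans (Submodule.span_mono ?_)
      rw [Set.singleton_subset_iff, Finset.mem_coe, Finset.mem_image]
      exact ⟨μ, hμR, rfl⟩
    · push Not at hb
      intro v hv
      rw [hb v hv]
      exact zero_mem _
  have h3 := finrank_span_finset_le_card (R := ℂ) (R.image u)
  have h4 : Set.finrank ℂ ((R.image u : Finset (Fin n → ℂ)) : Set (Fin n → ℂ)) = n := by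
    unfold Set.finrank
    rw [top_le_iff.1 hspan, finrank_top, Module.finrank_fin_fun]
  rw [h4] at h3
  exact (h3.trans Finset.card_image_le).trans hR

/-- Elements which commute modulo scalars commute, unless `n` is a prime dividing `d`. -/
theorem comm (hf : f.IsHomogeneous d) (hd : 0 < d)
    (hsemi : ∀ g : G, ∃ ψ : ℂ, ∀ x, eval (ρ g x) f = ψ * eval x f)
    (hfree : ∀ v, v ≠ 0 → eval v f = 0 → ∀ g (μ : ℂ), ρ g v = μ • v → g ∈ scal ρ)
    (hn : ¬ (n.Prime ∧ n ∣ d))
    {h : G} (hh : h ∉ scal ρ) {p : ℕ} (hp : p.Prime) (hhp : h ^ p ∈ scal ρ)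
    {q : G} (hq : (h * q)⁻¹ * (q * h) ∈ scal ρ) : ∀ x, ρ (q * h) x = ρ (h * q) x := by
  classical
  have hnt : Nontrivial (Fin n → ℂ) := by
    by_contra hcon
    rw [not_nontrivial_iff_subsingleton] at hcon
    exact hh ⟨1, fun x => Subsingleton.elim _ _⟩
  obtain ⟨ζ, hζ⟩ := rel hq
  by_cases hζ1 : ζ = 1
  · intro x
    rw [hζ, hζ1, one_smul]
  exfalso
  apply hn
  have hle := dim_le hf hd hfree hh hp.pos hhp
  obtain ⟨ν, hν⟩ := hhp
  have hν0 : ν ≠ 0 := scal_ne_zero hν
  obtain ⟨v, v1, lam, _, hv0, _, hv, _, _⟩ := exists_two hh hp.pos ⟨ν, hν⟩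
  have hne : ∀ (g : G) (x : Fin n → ℂ), x ≠ 0 → ρ g x ≠ 0 := by
    intro g x hx h1
    apply hx
    rw [← inv_app (ρ := ρ) g x, h1, map_zero]
  -- `q h = ζ h q`
  have hqh : ∀ x, ρ q (ρ h x) = ζ • ρ h (ρ q x) := by
    intro x
    rw [← mul_app, hζ, mul_app]
  have hζ0 : ζ ≠ 0 := by
    rintro rfl
    have h1 := hqh v
    rw [zero_smul] at h1
    exact hne q _ (hne h _ hv0) h1
  have hqhk : ∀ (k : ℕ) x, ρ q (ρ (h ^ k) x) = ζ ^ k • ρ (h ^ k) (ρ q x) := by
    intro k
    induction k with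
    | zero => intro x; simp
    | succ k ih =>
      intro x
      rw [pow_succ, mul_app, ih, hqh, map_smul, smul_smul, mul_app, pow_succ]
  have hζp : ζ ^ p = 1 := by
    have h1 := hqhk p v
    rw [hν, hν, map_smul, smul_smul] at h1
    have h2 := smul_left_injective ℂ (hne q v hv0) h1
    have h3 : ν * 1 = ν * ζ ^ p := by
      rw [mul_one, mul_comm]
      exact h2
    exact (mul_left_cancel₀ hν0 h3).symm
  have hord : orderOf ζ = p := by
    have : Fact p.Prime := ⟨hp⟩
    exact orderOf_eq_prime hζp hζ1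
  have hlam : lam ≠ 0 := by
    rintro rfl
    rw [zero_smul] at hv
    exact hne h v hv0 hv
  -- the vectors `q ^ i v` are eigenvectors
  have heig : ∀ i : ℕ, ρ h (ρ (q ^ i) v) = ((ζ⁻¹) ^ i * lam) • ρ (q ^ i) v := by
    intro i
    induction i with
    | zero => simpa using hv
    | succ i ih =>
      rw [pow_succ', mul_app]
      have h1 := hqh (ρ (q ^ i) v)
      rw [ih, map_smul] at h1
      have h2 : ρ h (ρ q (ρ (q ^ i) v)) = ζ⁻¹ • (((ζ⁻¹) ^ i * lam) • ρ q (ρ (q ^ i) v)) := by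
        rw [h1, smul_smul, inv_mul_cancel₀ hζ0, one_smul]
      rw [h2, smul_smul, pow_succ', mul_assoc]
  have hli : LinearIndependent ℂ (fun i : Fin p => ρ (q ^ (i : ℕ)) v) := by
    refine Module.End.eigenvectors_linearIndependent' (ρ h) (fun i : Fin p => (ζ⁻¹) ^ (i : ℕ) * lam)
      ?_ _ ?_
    · intro i j hij
      have h1 : (ζ⁻¹) ^ (i : ℕ) = (ζ⁻¹) ^ (j : ℕ) := mul_right_cancel₀ hlam hij
      rw [inv_pow, inv_pow, inv_inj] at h1
      exact Fin.ext (pow_injOn_Iio_orderOf (by rw [hord]; exact i.2) (by rw [hord]; exact j.2) h1)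
    · intro i
      exact ⟨Module.End.mem_eigenspace_iff.2 (heig i), hne _ _ hv0⟩
  have hge : p ≤ n := by
    have h1 := hli.fintype_card_le_finrank
    rwa [Fintype.card_fin, Module.finrank_fin_fun] at h1
  have hpn : n = p := le_antisymm hle hge
  refine ⟨by rw [hpn]; exact hp, ?_⟩
  rw [hpn, ← hord]
  apply orderOf_dvd_of_pow_eq_one
  -- `ζ ^ d = 1`
  obtain ⟨ψq, hψq⟩ := hsemi q
  obtain ⟨ψh, hψh⟩ := hsemi h
  have h1 : eval (ρ q (ρ h v)) f = eval (ρ h (ρ q v)) f := by
    rw [hψq, hψh, hψh, hψq]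
    ring
  have h2 : ρ q (ρ h v) = fun k => ζ * ρ h (ρ q v) k := hqh v
  rw [h2, Pool.Agent.TH144.MB.eval_smul' hf] at h1
  have h3 : eval (ρ h (ρ q v)) f ≠ 0 := by
    intro h4
    apply hh
    have h5 := heig 1
    rw [pow_one, pow_one] at h5
    refine hfree _ (hne h _ (hne q v hv0)) h4 h (ζ⁻¹ * lam) ?_
    conv_lhs => rw [h5]
    rw [map_smul, h5]
  have h4 : ζ ^ d * eval (ρ h (ρ q v)) f = 1 * eval (ρ h (ρ q v)) f := by rw [h1, one_mul]
  exact mul_right_cancel₀ h3 h4

theorem exists_char (P' : Subgroup G) {v0 : Fin n → ℂ} (hv0 : v0 ≠ 0)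
    (h : ∀ g ∈ P', ∃ a : ℂ, ρ g v0 = a • v0) :
    ∃ A : P' →* ℂˣ, ∀ g : P', ρ g v0 = (A g : ℂ) • v0 := by
  have h' : ∀ g : P', ∃ a : ℂ, ρ g v0 = a • v0 := fun g => h g g.2
  choose a ha using h'
  let A : P' →* ℂ :=
    { toFun := a
      map_one' := by
        have h1 := ha 1
        rw [Subgroup.coe_one, map_one, Module.End.one_apply] at h1
        have h2 : (1 : ℂ) • v0 = a 1 • v0 := by rw [one_smul]; exact h1
        exact (smul_left_injective ℂ hv0 h2).symm
      map_mul' := by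
        intro g g'
        have h1 := ha (g * g')
        rw [Subgroup.coe_mul, mul_app, ha g', map_smul, ha g, smul_smul] at h1
        have h2 := smul_left_injective ℂ hv0 h1
        rw [← h2, mul_comm] }
  exact ⟨A.toHomUnits, fun g => ha g⟩

/-- An upper bound for the subgroups which commute with a nonscalar element. -/
theorem relIndex_dvd [Finite G] (hf : f.IsHomogeneous d) (hd : 0 < d)
    (hsemi : ∀ g : G, ∃ ψ : ℂ, ∀ x, eval (ρ g x) f = ψ * eval x f)
    (hfree : ∀ v, v ≠ 0 → eval v f = 0 → ∀ g (μ : ℂ), ρ g v = μ • v → g ∈ scal ρ)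
    {h : G} (hh : h ∉ scal ρ) {p : ℕ} (hp : 0 < p) (hhp : h ^ p ∈ scal ρ) (P' : Subgroup G)
    (hP' : ∀ g ∈ P', ∀ x, ρ (g * h) x = ρ (h * g) x) : (scal ρ).relIndex P' ∣ d := by
  classical
  obtain ⟨v0, v1, μ0, μ1, hv0, hv1, h0, h1, hμ⟩ := exists_two hh hp hhp
  have hch : ∀ {v : Fin n → ℂ} {μ : ℂ}, v ≠ 0 → ρ h v = μ • v →
      ∀ g ∈ P', ∃ a : ℂ, ρ g v = a • v := by
    intro v μ hv hvμ g hg
    refine eig_unique hf hd hfree hh hv hvμ ?_
    rw [← mul_app, ← hP' g hg, mul_app, hvμ, map_smul]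
  obtain ⟨A0, hA0⟩ := exists_char P' hv0 (hch hv0 h0)
  obtain ⟨A1, hA1⟩ := exists_char P' hv1 (hch hv1 h1)
  have hli : LinearIndependent ℂ ![v0, v1] := by
    rw [LinearIndependent.pair_iff' hv0]
    intro a ha
    apply hμ
    rw [← ha, map_smul, h0, smul_smul, smul_smul] at h1
    have ha0 : a ≠ 0 := by
      rintro rfl
      rw [zero_smul] at ha
      exact hv1 ha.symm
    have h2 := smul_left_injective ℂ hv0 h1
    have h3 : a * μ0 = a * μ1 := by
      rw [mul_comm a μ1]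
      exact h2
    exact mul_left_cancel₀ ha0 h3
  have hker : (A0 / A1).ker = (scal ρ).subgroupOf P' := by
    ext g
    rw [MonoidHom.mem_ker, MonoidHom.div_apply, div_eq_one, Subgroup.mem_subgroupOf]
    constructor
    · intro h2
      obtain ⟨w, hw0, hwf, a, b, rfl⟩ := exists_zero hf hd hli
      refine hfree _ hw0 hwf g (A0 g) ?_
      rw [map_add, map_smul, map_smul, hA0, hA1, ← h2, smul_add, smul_comm a, smul_comm b]
    · rintro ⟨ν, hν⟩
      have h2 := hA0 g
      have h3 := hA1 g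
      rw [hν] at h2 h3
      apply Units.ext
      rw [← smul_left_injective ℂ hv0 h2, ← smul_left_injective ℂ hv1 h3]
  have hrange : (A0 / A1).range ≤ rootsOfUnity d ℂ := by
    rintro _ ⟨g, rfl⟩
    rw [mem_rootsOfUnity, MonoidHom.div_apply, div_pow, div_eq_one]
    obtain ⟨ψ, hψ⟩ := hsemi g
    have hA : ∀ {v : Fin n → ℂ} {μ : ℂ} {A : P' →* ℂˣ}, v ≠ 0 → ρ h v = μ • v →
        (∀ g : P', ρ g v = (A g : ℂ) • v) → (A g : ℂ) ^ d = ψ := by
      intro v μ A hv hvμ hA
      have h2 : eval v f ≠ 0 := fun h3 => hh (hfree v hv h3 h μ hvμ)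
      have h3 := hψ v
      have h4 : ρ g v = fun k => (A g : ℂ) * v k := hA g
      rw [h4, Pool.Agent.TH144.MB.eval_smul' hf] at h3
      exact mul_right_cancel₀ h2 h3
    apply Units.ext
    rw [Units.val_pow_eq_pow_val, Units.val_pow_eq_pow_val, hA hv0 h0 hA0, hA hv1 h1 hA1]
  have : NeZero d := ⟨hd.ne'⟩
  have h2 : (scal ρ).relIndex P' = Nat.card (A0 / A1).range := by
    rw [← Subgroup.index_ker, hker]
    rfl
  rw [h2]
  refine (Subgroup.card_dvd_of_le hrange).trans ?_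
  rw [Complex.card_rootsOfUnity]

/-- A group acting freely on a hypersurface of degree `d` has order dividing `d`, modulo scalars,
unless the number of variables is a prime dividing `d`. -/
theorem index_dvd [Finite G] (hf : f.IsHomogeneous d) (hd : 0 < d)
    (hsemi : ∀ g : G, ∃ ψ : ℂ, ∀ x, eval (ρ g x) f = ψ * eval x f)
    (hfree : ∀ v, v ≠ 0 → eval v f = 0 → ∀ g (μ : ℂ), ρ g v = μ • v → g ∈ scal ρ)
    (hn : ¬ (n.Prime ∧ n ∣ d)) : (scal ρ).index ∣ d := by
  classical
  rw [Nat.dvd_iff_prime_pow_dvd_dvd]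
  intro p k hp hk
  rcases Nat.eq_zero_or_pos k with rfl | hk0
  · simp
  have : Fact p.Prime := ⟨hp⟩
  obtain ⟨P, hP⟩ := Sylow.exists_subgroup_card_pow_prime (G := G ⧸ scal ρ) p hk
  have hPp : IsPGroup p P := IsPGroup.of_card hP
  have hPnt : Nontrivial P := by
    rw [← Finite.one_lt_card_iff_nontrivial, hP]
    exact Nat.one_lt_pow hk0.ne' hp.one_lt
  have hc := hPp.center_nontrivial
  have hpc : p ∣ Nat.card (Subgroup.center P) := by
    obtain ⟨j, hj⟩ := IsPGroup.iff_card.1 (hPp.to_subgroup (Subgroup.center P))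
    rw [hj]
    have h1 : 1 < Nat.card (Subgroup.center P) := Finite.one_lt_card
    have h2 : j ≠ 0 := by
      rintro rfl
      rw [hj, pow_zero] at h1
      exact absurd h1 (lt_irrefl 1)
    exact dvd_pow_self p h2
  obtain ⟨z, hz⟩ := exists_prime_orderOf_dvd_card' p hpc
  set hb : G ⧸ scal ρ := ((z : P) : G ⧸ scal ρ) with hhb
  have hb1 : hb ≠ 1 := by
    intro h1
    have h2 : z = 1 := by
      apply Subtype.ext
      apply Subtype.ext
      exact h1
    rw [h2, orderOf_one] at hz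
    exact hp.one_lt.ne hz
  have hbp : hb ^ p = 1 := by
    have h1 : z ^ p = 1 := by rw [← hz]; exact pow_orderOf_eq_one z
    have h2 := congrArg (fun w : Subgroup.center P => (((w : P)) : G ⧸ scal ρ)) h1
    simpa using h2
  set h : G := hb.out with hhdef
  have hmk : ((h : G) : G ⧸ scal ρ) = hb := QuotientGroup.out_eq' _
  have hh : h ∉ scal ρ := by
    intro h1
    apply hb1
    rw [← hmk]
    exact (QuotientGroup.eq_one_iff _).2 h1
  have hhp : h ^ p ∈ scal ρ := by
    rw [← QuotientGroup.eq_one_iff, QuotientGroup.mk_pow, hmk, hbp]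
  have h3 := relIndex_dvd hf hd hsemi hfree hh hp.pos hhp
    (P.comap (QuotientGroup.mk' (scal ρ))) (by
      intro g hg
      refine comm hf hd hsemi hfree hn hh hp hhp ?_
      rw [← QuotientGroup.eq, QuotientGroup.mk_mul, QuotientGroup.mk_mul, hmk]
      have h4 : ((g : G) : G ⧸ scal ρ) ∈ P := hg
      have h5 := Subgroup.mem_center_iff.1 (z : Subgroup.center P).2 ⟨_, h4⟩
      exact (congrArg (Subtype.val : P → G ⧸ scal ρ) h5).symm)
  have h4 : (scal ρ).relIndex (P.comap (QuotientGroup.mk' (scal ρ))) = p ^ k := by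
    have h2 := Subgroup.relIndex_comap (⊥ : Subgroup (G ⧸ scal ρ)) (QuotientGroup.mk' (scal ρ))
      (P.comap (QuotientGroup.mk' (scal ρ)))
    rw [MonoidHom.comap_bot, QuotientGroup.ker_mk', Subgroup.relIndex_bot_left,
      Subgroup.map_comap_eq_self_of_surjective (QuotientGroup.mk'_surjective _)] at h2
    rw [h2, hP]
  rwa [h4] at h3

end

end Pool.Agent.W5h63.FJ
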