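import Pool.Agent.TH144.MB.Mult
import Pool.Agent.W5h63.FJ.Ext

set_option autoImplicit false

/-!
# Semi-invariant forms which do not vanish at a given point of a cone with a free action
-/

namespace Pool.Agent.W5h63.FJ

open MvPolynomial Module Finset

variable {G : Type} [Group G] {n : ℕ}

/-- The elements of the group which act by scalars. -/
def scal (ρ : Representation ℂ G (Fin n → ℂ)) : Subgroup G where
  carrier := {g | ∃ ν : ℂ, ∀ x, ρ g x = ν • x}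
  one_mem' := ⟨1, fun x => by simp⟩
  mul_mem' := by
    rintro a b ⟨ν, hν⟩ ⟨μ, hμ⟩
    refine ⟨ν * μ, fun x => ?_⟩
    rw [map_mul, Module.End.mul_apply, hμ, map_smul, hν, smul_smul, mul_comm]
  inv_mem' := by
    rintro a ⟨ν, hν⟩
    refine ⟨ν⁻¹, fun x => ?_⟩
    have h1 : ρ a (ρ a⁻¹ x) = x := by
      rw [← Module.End.mul_apply, ← map_mul, mul_inv_cancel, map_one, Module.End.one_apply]
    rw [hν] at h1
    rcases eq_or_ne ν 0 with rfl | h
    · rw [zero_smul] at h1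
      rw [← h1, map_zero, smul_zero]
    · conv_rhs => rw [← h1]
      rw [smul_smul, inv_mul_cancel₀ h, one_smul]

variable {ρ : Representation ℂ G (Fin n → ℂ)}

theorem mul_app (g h : G) (x : Fin n → ℂ) : ρ (g * h) x = ρ g (ρ h x) := by
  rw [map_mul, Module.End.mul_apply]

theorem inv_app (g : G) (x : Fin n → ℂ) : ρ g⁻¹ (ρ g x) = x := by
  rw [← mul_app, inv_mul_cancel, map_one, Module.End.one_apply]

theorem app_inv (g : G) (x : Fin n → ℂ) : ρ g (ρ g⁻¹ x) = x := by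
  rw [← mul_app, mul_inv_cancel, map_one, Module.End.one_apply]

instance scal_normal : (scal ρ).Normal := by
  refine ⟨?_⟩
  rintro a ⟨ν, hν⟩ g
  refine ⟨ν, fun x => ?_⟩
  rw [mul_app, mul_app, hν, map_smul, app_inv]

theorem rel {g h : G} (hgh : g⁻¹ * h ∈ scal ρ) :
    ∃ ν : ℂ, ∀ x, ρ h x = ν • ρ g x := by
  obtain ⟨ν, hν⟩ := hgh
  refine ⟨ν, fun x => ?_⟩
  have h1 : h = g * (g⁻¹ * h) := by group
  rw [h1, mul_app, hν, map_smul]

theorem out_rel (g : G) : ∃ ν : ℂ, ∀ x, ρ g x = ν • ρ ((g : G ⧸ scal ρ).out) x := by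
  refine rel ?_
  rw [← QuotientGroup.eq]
  exact QuotientGroup.out_eq' _

theorem out_rel' (g : G) : ∃ ν : ℂ, ∀ x, ρ ((g : G ⧸ scal ρ).out) x = ν • ρ g x := by
  refine rel ?_
  rw [← QuotientGroup.eq]
  exact (QuotientGroup.out_eq' _).symm

/-- The orbit of `y`, indexed by the group modulo scalars. -/
noncomputable def orb (ρ : Representation ℂ G (Fin n → ℂ)) (y : Fin n → ℂ) (q : G ⧸ scal ρ) :
    Fin n → ℂ := ρ q.out y

theorem orb_mul (y : Fin n → ℂ) (q a : G ⧸ scal ρ) :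
    ∃ ν : ℂ, orb ρ y (q * a) = ν • ρ q.out (orb ρ y a) := by
  have h1 : q * a = ((q.out * a.out : G) : G ⧸ scal ρ) := by
    rw [QuotientGroup.mk_mul, QuotientGroup.out_eq', QuotientGroup.out_eq']
  obtain ⟨ν, hν⟩ := out_rel' (ρ := ρ) (q.out * a.out)
  refine ⟨ν, ?_⟩
  unfold orb
  rw [h1, hν, mul_app]

theorem dm_tr_le [Fintype (G ⧸ scal ρ)] [DecidableEq (G ⧸ scal ρ)] (y : Fin n → ℂ) (q : G ⧸ scal ρ)
    (A : Finset (G ⧸ scal ρ)) : dm (orb ρ y) (tr q A) ≤ dm (orb ρ y) A := by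
  unfold dm
  refine (Submodule.finrank_mono (t := (Submodule.span ℂ (orb ρ y '' (A : Set _))).map
    (ρ q.out)) ?_).trans (Submodule.finrank_map_le _ _)
  rw [Submodule.span_le]
  rintro _ ⟨x, hx, rfl⟩
  have hx' : x ∈ tr q A := hx
  rw [mem_tr] at hx'
  obtain ⟨ν, hν⟩ := orb_mul (ρ := ρ) y q (q⁻¹ * x)
  rw [mul_inv_cancel_left] at hν
  rw [hν]
  exact Submodule.smul_mem _ _ (Submodule.mem_map_of_mem (Submodule.subset_span ⟨_, hx', rfl⟩))

theorem tr_tr [Fintype (G ⧸ scal ρ)] [DecidableEq (G ⧸ scal ρ)] (q : G ⧸ scal ρ) (A : Finset (G ⧸ scal ρ)) :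
    tr q⁻¹ (tr q A) = A := by
  ext x
  rw [mem_tr, mem_tr]
  simp

theorem dm_tr [Fintype (G ⧸ scal ρ)] [DecidableEq (G ⧸ scal ρ)] (y : Fin n → ℂ) (q : G ⧸ scal ρ)
    (A : Finset (G ⧸ scal ρ)) : dm (orb ρ y) (tr q A) = dm (orb ρ y) A := by
  refine le_antisymm (dm_tr_le y q A) ?_
  have h := dm_tr_le y q⁻¹ (tr q A)
  rwa [tr_tr] at h

theorem orb_mul' (y : Fin n → ℂ) (q a : G ⧸ scal ρ) :
    ∃ ν : ℂ, ρ q.out (orb ρ y a) = ν • orb ρ y (q * a) := by
  have h1 : q * a = ((q.out * a.out : G) : G ⧸ scal ρ) := by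
    rw [QuotientGroup.mk_mul, QuotientGroup.out_eq', QuotientGroup.out_eq']
  obtain ⟨ν, hν⟩ := out_rel (ρ := ρ) (q.out * a.out)
  refine ⟨ν, ?_⟩
  unfold orb
  rw [h1, ← hν, mul_app]

theorem orb_ne_zero {y : Fin n → ℂ} (hy0 : y ≠ 0) (q : G ⧸ scal ρ) : orb ρ y q ≠ 0 := by
  intro h
  apply hy0
  have h1 := inv_app (ρ := ρ) q.out y
  unfold orb at h
  rw [← h1, h, map_zero]

section
variable {I : Ideal (MvPolynomial (Fin n) ℂ)}

theorem orb_sep
    (hfree : ∀ v, v ≠ 0 → (∀ p ∈ I, eval v p = 0) → ∀ g (μ : ℂ), ρ g v = μ • v → g ∈ scal ρ)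
    {y : Fin n → ℂ} (hy0 : y ≠ 0) (hy : ∀ p ∈ I, eval y p = 0) {q q' : G ⧸ scal ρ} (h : q ≠ q') :
    orb ρ y q' ∉ Submodule.span ℂ {orb ρ y q} := by
  intro hc
  obtain ⟨μ, hμ⟩ := Submodule.mem_span_singleton.1 hc
  apply h
  have h1 : ρ (q.out⁻¹ * q'.out) y = μ • y := by
    have h2 : ρ q'.out y = μ • ρ q.out y := hμ.symm
    rw [mul_app, h2, map_smul, inv_app]
  have h2 := hfree y hy0 hy _ μ h1
  rw [← QuotientGroup.eq] at h2
  rwa [QuotientGroup.out_eq', QuotientGroup.out_eq'] at h2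

theorem span_eq (K : Subgroup (G ⧸ scal ρ)) (A : Finset (G ⧸ scal ρ)) (hA : ∀ x, x ∈ A ↔ x ∈ K)
    (y : Fin n → ℂ) : Submodule.span ℂ (orb ρ y '' (A : Set (G ⧸ scal ρ)))
      = Submodule.span ℂ
        (Set.range fun h : (K.comap (QuotientGroup.mk' (scal ρ)) : Subgroup G) => ρ h y) := by
  apply le_antisymm
  · rw [Submodule.span_le]
    rintro _ ⟨q, hq, rfl⟩
    have hq' : q ∈ K := (hA q).1 hq
    refine Submodule.subset_span ⟨⟨q.out, ?_⟩, rfl⟩
    rw [Subgroup.mem_comap]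
    show ((q.out : G) : G ⧸ scal ρ) ∈ K
    rw [QuotientGroup.out_eq']
    exact hq'
  · rw [Submodule.span_le]
    rintro _ ⟨⟨h, hh⟩, rfl⟩
    obtain ⟨ν, hν⟩ := out_rel (ρ := ρ) h
    show ρ h y ∈ _
    rw [hν]
    exact Submodule.smul_mem _ _ (Submodule.subset_span ⟨(h : G ⧸ scal ρ), (hA _).2 hh, rfl⟩)

theorem relIndex_eq (K : Subgroup (G ⧸ scal ρ)) (A : Finset (G ⧸ scal ρ))
    (hA : ∀ x, x ∈ A ↔ x ∈ K) :
    (scal ρ).relIndex (K.comap (QuotientGroup.mk' (scal ρ))) = A.card := by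
  have h2 := Subgroup.relIndex_comap (⊥ : Subgroup (G ⧸ scal ρ)) (QuotientGroup.mk' (scal ρ))
    (K.comap (QuotientGroup.mk' (scal ρ)))
  rw [MonoidHom.comap_bot, QuotientGroup.ker_mk', Subgroup.relIndex_bot_left,
    Subgroup.map_comap_eq_self_of_surjective (QuotientGroup.mk'_surjective _)] at h2
  rw [h2]
  exact Nat.subtype_card A hA

open Pool.Agent.TH144.MB in
theorem two_dim (hI : Hom I) {ρ₀ : ℕ} (hρ : TopBound I ρ₀)
    (hst : ∀ g v, (∀ p ∈ I, eval v p = 0) → ∀ p ∈ I, eval (ρ g v) p = 0)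
    (hfree : ∀ v, v ≠ 0 → (∀ p ∈ I, eval v p = 0) → ∀ g (μ : ℂ), ρ g v = μ • v → g ∈ scal ρ)
    {y : Fin n → ℂ} (hy0 : y ≠ 0) (hy : ∀ p ∈ I, eval y p = 0)
    (K : Subgroup (G ⧸ scal ρ)) (A : Finset (G ⧸ scal ρ)) (hA : ∀ x, x ∈ A ↔ x ∈ K)
    (h2 : dm (orb ρ y) A = 2) : A.card ≤ ρ₀ + 1 := by
  classical
  have h1A : (1 : G ⧸ scal ρ) ∈ A := (hA 1).2 K.one_mem
  obtain ⟨q₁, hq₁, hne⟩ : ∃ q ∈ A, q ≠ 1 := by
    by_contra hcon
    push Not at hcon
    have h3 : A = {1} := by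
      ext x
      rw [Finset.mem_singleton]
      exact ⟨hcon x, fun h => h ▸ h1A⟩
    rw [h3] at h2
    have h4 := dm_singleton_le (orb ρ y) 1
    omega
  set W := Submodule.span ℂ (orb ρ y '' (A : Set (G ⧸ scal ρ))) with hW
  have hWr : finrank ℂ W = 2 := h2
  have hg : q₁.out ∉ scal ρ := by
    intro h
    apply hne
    rw [← QuotientGroup.out_eq' q₁]
    exact (QuotientGroup.eq_one_iff _).2 h
  have hmap : ∀ x ∈ W, ρ q₁.out x ∈ W := by
    intro x hx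
    have h3 : W ≤ W.comap (ρ q₁.out) := by
      rw [hW, Submodule.span_le]
      rintro _ ⟨q, hq, rfl⟩
      obtain ⟨ν, hν⟩ := orb_mul' (ρ := ρ) y q₁ q
      show ρ q₁.out (orb ρ y q) ∈ Submodule.span ℂ (orb ρ y '' (A : Set (G ⧸ scal ρ)))
      rw [hν]
      refine Submodule.smul_mem _ _ (Submodule.subset_span ⟨_, ?_, rfl⟩)
      exact (hA _).2 (K.mul_mem ((hA _).1 hq₁) ((hA _).1 hq))
    exact h3 hx
  have hnt : Nontrivial W := Module.nontrivial_of_finrank_pos (R := ℂ) (by rw [hWr]; norm_num)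
  obtain ⟨μ, hμ⟩ := Module.End.exists_eigenvalue ((ρ q₁.out).restrict hmap)
  obtain ⟨w, hw⟩ := hμ.exists_hasEigenvector
  have hw1 : ρ q₁.out (w : Fin n → ℂ) = μ • (w : Fin n → ℂ) :=
    congrArg Subtype.val hw.apply_eq_smul
  have hw0 : (w : Fin n → ℂ) ≠ 0 := fun h => hw.2 (Subtype.ext h)
  obtain ⟨p, hp, hpw⟩ : ∃ p ∈ I, eval (w : Fin n → ℂ) p ≠ 0 := by
    by_contra hcon
    push Not at hcon
    exact hg (hfree _ hw0 hcon _ μ hw1)
  have horb : ∀ q, ∀ p ∈ I, eval (orb ρ y q) p = 0 := fun q => hst _ _ hy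
  have hle : Submodule.span ℂ {orb ρ y 1, (w : Fin n → ℂ)} ≤ W := by
    rw [Submodule.span_le]
    rintro x (rfl | hx)
    · exact Submodule.subset_span ⟨1, h1A, rfl⟩
    · rw [Set.mem_singleton_iff.1 hx]
      exact w.2
  have hnot : ∀ a : ℂ, a • orb ρ y 1 ≠ (w : Fin n → ℂ) := by
    intro a ha
    apply hpw
    rw [← ha]
    exact cone hI (horb 1) a p hp
  have hli : LinearIndependent ℂ ![orb ρ y 1, (w : Fin n → ℂ)] := by
    rw [LinearIndependent.pair_iff' (orb_ne_zero hy0 1)]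
    exact hnot
  have hfr : finrank ℂ (Submodule.span ℂ {orb ρ y 1, (w : Fin n → ℂ)}) = 2 := by
    have h3 := finrank_span_eq_card hli
    rw [Matrix.range_cons, Matrix.range_cons, Matrix.range_empty, Set.union_empty,
      Set.singleton_union, Fintype.card_fin] at h3
    exact h3
  have hpair : W ≤ Submodule.span ℂ {orb ρ y 1, (w : Fin n → ℂ)} :=
    (Submodule.eq_of_le_of_finrank_eq hle (by rw [hfr, hWr])).ge
  have hy1 : orb ρ y 1 ∉ Submodule.span ℂ {(w : Fin n → ℂ)} := by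
    intro h3
    obtain ⟨a, ha⟩ := Submodule.mem_span_singleton.1 h3
    have ha0 : a ≠ 0 := by
      rintro rfl
      rw [zero_smul] at ha
      exact orb_ne_zero hy0 1 ha.symm
    apply hnot a⁻¹
    rw [← ha, smul_smul, inv_mul_cancel₀ ha0, one_smul]
  have h3 := line_bound hI hρ hw0 ⟨p, hp, hpw⟩ hy1 (ι := A)
    (fun a => orb ρ y (a : G ⧸ scal ρ))
    (fun a => hpair (Submodule.subset_span ⟨_, a.2, rfl⟩)) (fun a => orb_ne_zero hy0 _)
    (fun a => horb _) (fun a b hab => orb_sep hfree hy0 hy fun h => hab (Subtype.ext h))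
    (Or.inl rfl)
  rwa [one_mul, Fintype.card_coe] at h3

/-- Averaging a form which separates `y` from the rest of its orbit. -/
theorem average [Finite G] {e : ℕ} (P : MvPolynomial (Fin n) ℂ) (hP : P.IsHomogeneous e)
    {y : Fin n → ℂ} (hPy : eval y P ≠ 0) (hP0 : ∀ g, g ∉ scal ρ → eval (ρ g y) P = 0)
    (χ : G →* ℂˣ) (hχ : ∀ g (ν : ℂ), (∀ x, ρ g x = ν • x) → (χ g : ℂ) = ν ^ e) :
    ∃ F : MvPolynomial (Fin n) ℂ, F.IsHomogeneous e ∧
      (∀ g x, eval (ρ g x) F = χ g * eval x F) ∧ eval y F ≠ 0 := by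
  classical
  have _ := Fintype.ofFinite G
  let T : G → MvPolynomial (Fin n) ℂ := fun g =>
    aeval (fun i => lf ((LinearMap.proj i : (Fin n → ℂ) →ₗ[ℂ] ℂ) ∘ₗ ρ g)) P
  have hTe : ∀ g x, eval x (T g) = eval (ρ g x) P := by
    intro g x
    simp only [T]
    rw [← coe_aeval_eq_eval, ← coe_aeval_eq_eval]
    show aeval x (aeval _ P) = aeval (ρ g x) P
    rw [← AlgHom.comp_apply, comp_aeval]
    congr 1
    congr 1
    funext i
    have h5 := eval_lf ((LinearMap.proj i : (Fin n → ℂ) →ₗ[ℂ] ℂ) ∘ₗ ρ g) x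
    rw [← coe_aeval_eq_eval] at h5
    exact h5
  have hTh : ∀ g, (T g).IsHomogeneous e := by
    intro g
    have h1 := hP.aeval (fun i => lf ((LinearMap.proj i : (Fin n → ℂ) →ₗ[ℂ] ℂ) ∘ₗ ρ g))
      (fun i => lf_hom _)
    rwa [one_mul] at h1
  refine ⟨∑ g, C (((χ g)⁻¹ : ℂˣ) : ℂ) * T g, ?_, ?_, ?_⟩
  · refine IsHomogeneous.sum _ _ _ fun g _ => ?_
    have h1 := (isHomogeneous_C (Fin n) (((χ g)⁻¹ : ℂˣ) : ℂ)).mul (hTh g)
    rwa [zero_add] at h1
  · intro h x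
    simp only [map_sum, map_mul, eval_C, hTe]
    rw [Finset.mul_sum]
    refine Fintype.sum_bijective (fun g => g * h) (Group.mulRight_bijective h) _ _ fun g => ?_
    simp only [mul_app]
    have h1 : ((χ (g * h))⁻¹ : ℂˣ) = (χ h)⁻¹ * (χ g)⁻¹ := by
      rw [map_mul, mul_inv_rev]
    rw [h1, Units.val_mul, ← mul_assoc, ← mul_assoc, Units.mul_inv, one_mul]
  · simp only [map_sum, map_mul, eval_C, hTe]
    have h1 : ∀ g, (((χ g)⁻¹ : ℂˣ) : ℂ) * eval (ρ g y) P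
        = if g ∈ scal ρ then eval y P else 0 := by
      intro g
      split_ifs with hg
      · obtain ⟨ν, hν⟩ := hg
        have h2 := hχ g ν hν
        have h3 : (ν • y : Fin n → ℂ) = fun k => ν * y k := rfl
        rw [hν, h3, Pool.Agent.TH144.MB.eval_smul' hP, ← h2, ← mul_assoc, Units.inv_mul, one_mul]
      · rw [hP0 g hg, mul_zero]
    simp only [h1]
    rw [← Finset.sum_filter, Finset.sum_const, nsmul_eq_mul]
    refine mul_ne_zero ?_ hPy
    rw [Nat.cast_ne_zero]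
    refine Finset.card_ne_zero_of_mem (a := (1 : G)) ?_
    rw [mem_filter]
    exact ⟨mem_univ _, (scal ρ).one_mem⟩

/-- A linear form which does not vanish at the points of a finite section. -/
theorem exists_hyper {W : Submodule ℂ (Fin n → ℂ)} (S : Finset (Fin n → ℂ))
    (hS : ∀ v ∈ W, v ≠ 0 → (∀ p ∈ I, eval v p = 0) → ∃ u ∈ S, ∃ c : ℂ, v = c • u) :
    ∃ b : (Fin n → ℂ) →ₗ[ℂ] ℂ, ∀ v ∈ W, (∀ p ∈ I, eval v p = 0) → b v = 0 → v = 0 := by
  classical
  obtain ⟨a, ha⟩ := Pool.Agent.TH144.MB.exists_avoid (S.filter fun u => u ≠ 0)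
    (fun u hu => (mem_filter.1 hu).2)
  refine ⟨∑ i, a i • LinearMap.proj i, fun v hv hvf hb => ?_⟩
  by_contra hv0
  obtain ⟨u, hu, c, hc⟩ := hS v hv hv0 hvf
  have hu0 : u ≠ 0 := by
    rintro rfl
    exact hv0 (by rw [hc, smul_zero])
  have hc0 : c ≠ 0 := by
    rintro rfl
    exact hv0 (by rw [hc, zero_smul])
  have h1 := ha u (mem_filter.2 ⟨hu, hu0⟩)
  rw [Pool.Agent.TH144.MB.eval_lin] at h1
  rw [hc, map_smul] at hb
  rcases smul_eq_zero.1 hb with h2 | h2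
  · exact hc0 h2
  · apply h1
    rw [← h2]
    simp [LinearMap.sum_apply]

open Pool.Agent.TH144.MB in
theorem core [Finite G] [Fintype (G ⧸ scal ρ)] (hI : Hom I) {ρ₀ : ℕ} (hρ : TopBound I ρ₀)
    (hst : ∀ g v, (∀ p ∈ I, eval v p = 0) → ∀ p ∈ I, eval (ρ g v) p = 0)
    (hfree : ∀ v, v ≠ 0 → (∀ p ∈ I, eval v p = 0) → ∀ g (μ : ℂ), ρ g v = μ • v → g ∈ scal ρ)
    (e : ℕ) (hde : ρ₀ ≤ e)
    {y : Fin n → ℂ} (hy0 : y ≠ 0) (hy : ∀ p ∈ I, eval y p = 0)
    (K : Subgroup (G ⧸ scal ρ)) (B : Finset (G ⧸ scal ρ)) (hKB : ∀ x, x ∈ B ↔ x ∈ K)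
    (hmax : ∀ A : Finset (G ⧸ scal ρ), A.Nonempty →
      (A.card : ℤ) - e * dm (orb ρ y) A ≤ (B.card : ℤ) - e * dm (orb ρ y) B)
    (hH : 3 ≤ finrank ℂ (Submodule.span ℂ (Set.range
        fun h : (K.comap (QuotientGroup.mk' (scal ρ)) : Subgroup G) => ρ h y)) →
      (scal ρ).relIndex (K.comap (QuotientGroup.mk' (scal ρ)))
        ≤ 1 + e * (finrank ℂ (Submodule.span ℂ (Set.range
          fun h : (K.comap (QuotientGroup.mk' (scal ρ)) : Subgroup G) => ρ h y)) - 1) ∨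
      ∃ S : Finset (Fin n → ℂ), ∀ v ∈ Submodule.span ℂ (Set.range
          fun h : (K.comap (QuotientGroup.mk' (scal ρ)) : Subgroup G) => ρ h y), v ≠ 0 →
        (∀ p ∈ I, eval v p = 0) → ∃ u ∈ S, ∃ c : ℂ, v = c • u)
    (χ : G →* ℂˣ) (hχ : ∀ g (ν : ℂ), (∀ x, ρ g x = ν • x) → (χ g : ℂ) = ν ^ e) :
    ∃ F : MvPolynomial (Fin n) ℂ, F.IsHomogeneous e ∧
      (∀ g x, eval (ρ g x) F = χ g * eval x F) ∧ eval y F ≠ 0 := by
  classical
  have _ := Fintype.ofFinite G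
  have h1B : (1 : G ⧸ scal ρ) ∈ B := (hKB 1).2 K.one_mem
  have h1 : dm (orb ρ y) {1} = 1 := by
    unfold dm
    rw [coe_singleton, Set.image_singleton]
    exact finrank_span_singleton (orb_ne_zero hy0 _)
  have h2 : 1 ≤ dm (orb ρ y) B := by
    rw [← h1]
    exact dm_mono _ (by simpa using h1B)
  have horb : ∀ q, ∀ p ∈ I, eval (orb ρ y q) p = 0 := fun q => hst _ _ hy
  -- a form separating the points of the orbit
  have key : ∃ P : MvPolynomial (Fin n) ℂ, P.IsHomogeneous e ∧ eval (orb ρ y 1) P ≠ 0 ∧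
      ∀ q, q ≠ 1 → eval (orb ρ y q) P = 0 := by
    have hsmall : (B.card : ℤ) - e * dm (orb ρ y) B ≤ 1 - e →
        ∃ P : MvPolynomial (Fin n) ℂ, P.IsHomogeneous e ∧ eval (orb ρ y 1) P ≠ 0 ∧
          ∀ q, q ≠ 1 → eval (orb ρ y q) P = 0 := by
      intro hB
      obtain ⟨φ, hφ1, hφ2⟩ := exists_forms (orb ρ y) 1 (orb_ne_zero hy0 1) e
        (fun A hA => (hmax A hA).trans hB)
      refine ⟨∏ i, lf (φ i), ?_, ?_, ?_⟩
      · have h1 : (∏ i, lf (φ i)).IsHomogeneous (∑ _i : Fin e, 1) :=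
          IsHomogeneous.prod _ _ _ fun i _ => lf_hom _
        simpa using h1
      · rw [map_prod]
        refine Finset.prod_ne_zero_iff.2 fun i _ => ?_
        rw [eval_lf]
        exact hφ1 i
      · intro q hq
        obtain ⟨i, hi⟩ := hφ2 q hq
        rw [map_prod, Finset.prod_eq_zero (mem_univ i)]
        rw [eval_lf]
        exact hi
    rcases (show dm (orb ρ y) B = 1 ∨ dm (orb ρ y) B = 2 ∨ 3 ≤ dm (orb ρ y) B by omega) with
      h3 | h3 | h3
    · apply hsmall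
      have h4 : B.card ≤ 1 := by
        rw [card_le_one]
        intro a ha b hb
        by_contra hab
        have h5 := orb_sep hfree hy0 hy hab
        apply h5
        have h6 : Submodule.span ℂ {orb ρ y a}
            = Submodule.span ℂ (orb ρ y '' (B : Set (G ⧸ scal ρ))) := by
          refine Submodule.eq_of_le_of_finrank_eq (Submodule.span_mono ?_) ?_
          · rintro _ rfl
            exact ⟨a, ha, rfl⟩
          · rw [finrank_span_singleton (orb_ne_zero hy0 _)]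
            exact h3.symm
        rw [h6]
        exact Submodule.subset_span ⟨b, hb, rfl⟩
      rw [h3]
      have h5 : (B.card : ℤ) ≤ 1 := by exact_mod_cast h4
      push_cast
      linarith
    · apply hsmall
      have hj := two_dim hI hρ hst hfree hy0 hy K B hKB h3
      have h4 : (B.card : ℤ) ≤ e + 1 := by exact_mod_cast hj.trans (by omega)
      rw [h3]
      push_cast
      linarith
    · have h4 := hH
      rw [← span_eq K B hKB y, relIndex_eq K B hKB] at h4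
      rcases h4 h3 with h5 | ⟨S, hS⟩
      · apply hsmall
        have h5 : B.card ≤ 1 + e * (dm (orb ρ y) B - 1) := h5
        obtain ⟨t, ht⟩ : ∃ t, dm (orb ρ y) B = t + 1 := ⟨dm (orb ρ y) B - 1, by omega⟩
        rw [ht] at h5 ⊢
        rw [Nat.add_sub_cancel] at h5
        have h6 : (B.card : ℤ) ≤ 1 + e * t := by exact_mod_cast h5
        push_cast
        linarith
      · obtain ⟨b, hb⟩ := exists_hyper S hS
        obtain ⟨F, hF, hFy, hFS⟩ := sep_finite hI hρ _ b hb (orb_ne_zero hy0 1) (horb 1)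
          (Submodule.subset_span ⟨1, h1B, rfl⟩) ((B.erase 1).image (orb ρ y)) (by
            intro s hs
            obtain ⟨q, hq, rfl⟩ := mem_image.1 hs
            refine ⟨orb_ne_zero hy0 q, horb q, Submodule.subset_span
              ⟨q, (mem_erase.1 hq).2, rfl⟩, ?_⟩
            exact orb_sep hfree hy0 hy (mem_erase.1 hq).1) hde
        obtain ⟨T, hT1, hT2⟩ := exists_maps (orb ρ y) e B ⟨1, h1B⟩ hmax
        obtain ⟨P, hP, hP1, hP2⟩ := exists_ext_form T F hF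
        refine ⟨P, hP, ?_, ?_⟩
        · rw [hP1 _ fun i => hT1 i _ (Submodule.subset_span ⟨1, h1B, rfl⟩)]
          exact hFy
        · intro q hq
          by_cases hqB : q ∈ B
          · rw [hP1 _ fun i => hT1 i _ (Submodule.subset_span ⟨q, hqB, rfl⟩)]
            exact hFS _ (mem_image.2 ⟨q, mem_erase.2 ⟨hq, hqB⟩, rfl⟩)
          · exact hP2 _ (hT2 q hqB)
  obtain ⟨P, hP, hP1, hP2⟩ := key
  refine average P hP (y := y) ?_ ?_ χ hχ
  · obtain ⟨ν, hν⟩ := out_rel' (ρ := ρ) (1 : G)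
    intro h
    apply hP1
    have h3 : orb ρ y 1 = fun k => ν * y k := by
      unfold orb
      have h4 : (1 : G ⧸ scal ρ) = ((1 : G) : G ⧸ scal ρ) := rfl
      rw [h4, hν, map_one, Module.End.one_apply]
      rfl
    rw [h3, Pool.Agent.TH144.MB.eval_smul' hP, h, mul_zero]
  · intro g hg
    have h2 : (g : G ⧸ scal ρ) ≠ 1 := fun h => hg ((QuotientGroup.eq_one_iff _).1 h)
    obtain ⟨ν, hν⟩ := out_rel (ρ := ρ) g
    have h3 : ρ g y = fun k => ν * orb ρ y (g : G ⧸ scal ρ) k := by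
      rw [hν]
      rfl
    rw [h3, Pool.Agent.TH144.MB.eval_smul' hP, hP2 _ h2, mul_zero]

end

end Pool.Agent.W5h63.FJ
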