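import Pool.Agent.W5h63.FJ.Hyp

set_option autoImplicit false

/-!
# The bounds for complete intersections and Cohen-Macaulay ideals, and diagonal groups
-/

namespace Pool.Agent.W5h63.FJ

open MvPolynomial Module

open Pool.Agent.TH144.MB in
theorem reg_ofFn {N : ℕ} (s : ℕ) : ∀ (a : Fin s → Fin (N + 1) → ℂ)
    (I : Ideal (MvPolynomial (Fin (N + 1)) ℂ)),
    (∀ i p, lin (a i) * p ∈ I ⊔ Ideal.span ((fun j => lin (a j)) '' {j | j < i}) →
      p ∈ I ⊔ Ideal.span ((fun j => lin (a j)) '' {j | j < i})) →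
    Reg I ((List.ofFn a).map lin) := by
  induction s with
  | zero => intro a I _; simp [Reg]
  | succ s ih =>
    intro a I h
    rw [List.ofFn_succ, List.map_cons]
    refine ⟨?_, ih _ _ ?_⟩
    · have h0 := h 0
      have h1 : {j : Fin (s + 1) | j < 0} = ∅ := by
        ext j
        simp
      rw [h1, Set.image_empty, Ideal.span_empty, sup_bot_eq] at h0
      exact h0
    · intro i p
      have h0 := h i.succ p
      have h1 : {j : Fin (s + 1) | j < i.succ} = {0} ∪ Fin.succ '' {j | j < i} := by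
        ext j
        refine Fin.cases ?_ (fun j => ?_) j
        · simp
        · simp [Fin.succ_ne_zero]
      have h2 : I ⊔ Ideal.span ((fun j => lin (a j)) '' {j | j < i.succ})
          = I ⊔ Ideal.span {lin (a 0)}
            ⊔ Ideal.span ((fun j => lin (a (Fin.succ j))) '' {j | j < i}) := by
        rw [h1, Set.image_union, Set.image_singleton, Ideal.span_union, ← sup_assoc,
          Set.image_image]
      rw [h2] at h0
      exact h0

open Pool.Agent.TH144.MB in
theorem le_ext_ofFn {N : ℕ} (s : ℕ) (a : Fin s → Fin (N + 1) → ℂ)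
    (I : Ideal (MvPolynomial (Fin (N + 1)) ℂ)) :
    I ⊔ Ideal.span (Set.range fun j => lin (a j)) ≤ ext I ((List.ofFn a).map lin) := by
  have h4 : ∀ (L : List (MvPolynomial (Fin (N + 1)) ℂ))
      (I : Ideal (MvPolynomial (Fin (N + 1)) ℂ)), ∀ f ∈ L, f ∈ ext I L := by
    intro L
    induction L with
    | nil => intro I f hf; simp at hf
    | cons g L ih =>
      intro I f hf
      rw [ext_cons]
      rcases List.mem_cons.1 hf with rfl | hf
      · exact Ideal.mem_sup_right (Ideal.mem_span_singleton_self f)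
      · exact Ideal.mem_sup_left (ih I f hf)
  refine sup_le (le_ext _ _) ?_
  rw [Ideal.span_le]
  rintro _ ⟨j, rfl⟩
  refine h4 _ _ _ (List.mem_map.2 ⟨a j, ?_, rfl⟩)
  rw [List.mem_ofFn]
  exact ⟨j, rfl⟩

open Pool.Agent.TH144.MB in
theorem exists_topBound {N : ℕ} {I : Ideal (MvPolynomial (Fin (N + 1)) ℂ)} (hI : Hom I) {n : ℕ}
    {κ : ℤ} {e : ℕ} (hmk : (n : ℤ) + 1 + κ ≤ e) {y : Fin (N + 1) → ℂ}
    (hy : ∀ p ∈ I, eval y p = 0)
    (hY : (∃ (c : ℕ) (f : Fin c → MvPolynomial (Fin (N + 1)) ℂ) (d : Fin c → ℕ),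
      (∀ j, (f j).IsHomogeneous (d j) ∧ 0 < d j) ∧ I = Ideal.span (Set.range f) ∧
        N = n + c ∧ κ = ∑ j, (d j : ℤ) - (N + 1)) ∨
      ∃ a : Fin (n + 1) → Fin (N + 1) → ℂ,
        (∀ i p, lin (a i) * p ∈ I ⊔ Ideal.span ((fun j => lin (a j)) '' {j | j < i}) →
          p ∈ I ⊔ Ideal.span ((fun j => lin (a j)) '' {j | j < i})) ∧
        ∀ t : ℕ, κ + n + 1 < t → ∀ p : MvPolynomial (Fin (N + 1)) ℂ, p.IsHomogeneous t →
          p ∈ I ⊔ Ideal.span (Set.range fun j => lin (a j))) :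
    ∃ ρ₀, TopBound I ρ₀ ∧ ρ₀ ≤ e := by
  rcases hY with ⟨c, f, d, hfd, hI', hN, hκ⟩ | ⟨a, ha, hb⟩
  · refine ⟨∑ j, (d j - 1), ?_, ?_⟩
    · rw [hI']
      exact topBound_forms f d (fun j => (hfd j).1) fun j => (hfd j).2
    · have h1 : ((∑ j, (d j - 1) : ℕ) : ℤ) = ∑ j, (d j : ℤ) - c := by
        rw [Nat.cast_sum]
        have h2 : ∀ j, ((d j - 1 : ℕ) : ℤ) = (d j : ℤ) - 1 := fun j => by
          have := (hfd j).2
          omega
        simp only [h2]
        rw [Finset.sum_sub_distrib]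
        simp
      have h3 : (N : ℤ) = n + c := by exact_mod_cast hN
      have h4 : ((∑ j, (d j - 1) : ℕ) : ℤ) ≤ e := by
        rw [h1]
        rw [hκ, h3] at hmk
        linarith
      exact_mod_cast h4
  · rcases lt_or_ge (κ + n + 1) 0 with h0 | h0
    · exfalso
      have h1 := hb 0 (by simpa using h0) 1 (isHomogeneous_one _ _)
      have h2 : I ⊔ Ideal.span (Set.range fun j => lin (a j))
          ≤ RingHom.ker (eval (fun i => (0 : ℂ) * y i)) := by
        refine sup_le (fun p hp => RingHom.mem_ker.2 (cone hI hy 0 p hp)) ?_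
        rw [Ideal.span_le]
        rintro _ ⟨i, rfl⟩
        refine RingHom.mem_ker.2 ?_
        simp [lin]
      have h3 := RingHom.mem_ker.1 (h2 h1)
      rw [map_one] at h3
      exact one_ne_zero h3
    · refine ⟨(κ + n + 1).toNat, ?_, by omega⟩
      refine topBound_cm hI (List.ofFn a) (reg_ofFn (n + 1) a I ha) ?_
      intro t ht p hp
      refine le_ext_ofFn (n + 1) a I (hb t ?_ p hp)
      omega

open Pool.Agent.TH144.MB in
/-- Diagonal groups of any order. -/
theorem diagonal {G : Type} [Group G] [Finite G] {n : ℕ} {ρ : Representation ℂ G (Fin n → ℂ)}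
    {I : Ideal (MvPolynomial (Fin n) ℂ)} (hI : Hom I) {ρ₀ : ℕ} (hρ : TopBound I ρ₀)
    (hst : ∀ g v, (∀ p ∈ I, eval v p = 0) → ∀ p ∈ I, eval (ρ g v) p = 0)
    (hfree : ∀ v, v ≠ 0 → (∀ p ∈ I, eval v p = 0) → ∀ g (μ : ℂ), ρ g v = μ • v → g ∈ scal ρ)
    (hdiag : ∀ g i, ∃ a : ℂ, ρ g (Pi.single i 1) = a • Pi.single i 1)
    (hsc : ∀ g ∈ scal ρ, g = 1) (e : ℕ) (hde : ρ₀ ≤ e) {y : Fin n → ℂ} (hy0 : y ≠ 0)
    (hy : ∀ p ∈ I, eval y p = 0) (χ : G →* ℂˣ) :
    ∃ F : MvPolynomial (Fin n) ℂ, F.IsHomogeneous e ∧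
      (∀ g x, eval (ρ g x) F = χ g * eval x F) ∧ eval y F ≠ 0 := by
  classical
  have _ := Fintype.ofFinite G
  have hα : ∀ i : Fin n, ∃ α : G →* ℂˣ, ∀ g,
      ρ g (Pi.single i 1) = (α g : ℂ) • (Pi.single i 1 : Fin n → ℂ) := by
    intro i
    have h0 : (Pi.single i 1 : Fin n → ℂ) ≠ 0 := by
      rw [Ne, Pi.single_eq_zero_iff]
      exact one_ne_zero
    obtain ⟨A, hA⟩ := exists_char (ρ := ρ) (⊤ : Subgroup G) h0 (fun g _ => hdiag g i)
    exact ⟨A.comp (Subgroup.topEquiv.symm : G ≃* (⊤ : Subgroup G)).toMonoidHom,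
      fun g => hA ⟨g, Subgroup.mem_top g⟩⟩
  choose α hα using hα
  have hmv : ∀ g v, mv α g v = ρ g v := by
    intro g v
    have h1 : v = ∑ i, v i • (Pi.single i (1 : ℂ) : Fin n → ℂ) := by
      funext j
      simp [Finset.sum_apply, Pi.single_apply]
    conv_rhs => rw [h1]
    rw [map_sum]
    funext j
    simp only [map_smul, hα, Finset.sum_apply, Pi.smul_apply, smul_eq_mul, Pi.single_apply, mv]
    simp [mul_comm]
  let S : Sit ℂ G n :=
    { I := I
      hom := hI
      α := α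
      stable := fun v hv g p hp => by rw [hmv]; exact hst g v hv p hp
      free := fun v hv0 hv g μ h => hsc g (hfree v hv0 hv g μ (by
        rw [← hmv]
        exact funext h)) }
  obtain ⟨μ, h1, h2, h3⟩ := S.exists_monomial hρ hy0 hy χ hde
  refine ⟨monomial μ 1, isHomogeneous_monomial _ h1, ?_, ?_⟩
  · intro g x
    rw [← hmv, eval_monomial, eval_monomial, Finsupp.prod_fintype _ _ (fun i => pow_zero _),
      Finsupp.prod_fintype _ _ (fun i => pow_zero _), one_mul, one_mul]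
    simp only [mv, mul_pow, Finset.prod_mul_distrib]
    congr 1
    have h4 := h2 g
    have h5 := congrArg (fun u : ℂˣ => (u : ℂ)) h4
    simp only [Units.coe_prod, Units.val_pow_eq_pow_val] at h5
    exact h5
  · rw [eval_monomial, Finsupp.prod_fintype _ _ (fun i => pow_zero _), one_mul]
    exact h3

end Pool.Agent.W5h63.FJ
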